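import Pool.Agent.MP_d97ab6_al.H26.Pull

namespace Pool.Agent.MP_d97ab6_al.H26

open Complex ComplexConjugate

/-- fourth roots of unity -/
def Un (e : ℂ) : Prop := e = 1 ∨ e = -1 ∨ e = I ∨ e = -I

theorem Un.normSq {e : ℂ} (h : Un e) : normSq e = 1 := by
  rcases h with rfl | rfl | rfl | rfl <;> simp

theorem Un.mul {e f : ℂ} (h : Un e) (h' : Un f) : Un (e * f) := by
  rcases h with rfl | rfl | rfl | rfl <;> rcases h' with rfl | rfl | rfl | rfl <;> simp [Un]

theorem Un.conj {e : ℂ} (h : Un e) : Un (conj e) := by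
  rcases h with rfl | rfl | rfl | rfl <;> simp [Un]

theorem Un.neg {e : ℂ} (h : Un e) : Un (-e) := by
  rcases h with rfl | rfl | rfl | rfl <;> simp [Un]

theorem Un.mul_conj {e : ℂ} (h : Un e) : e * (starRingEnd ℂ) e = 1 := by
  rcases h with rfl | rfl | rfl | rfl <;> simp

theorem un_one : Un 1 := Or.inl rfl

theorem un_I : Un I := Or.inr (Or.inr (Or.inl rfl))

theorem normSq_one_sub_I : normSq (1 - I) = 2 := by simp [normSq_apply]; norm_num

theorem normSq_I_sub_one : normSq (I - 1) = 2 := by simp [normSq_apply]; norm_num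

theorem normSq_I_add_one : normSq (I + 1) = 2 := by simp [normSq_apply]; norm_num

/-- the four diagonal lines pass through the point -/
def Cp (M : ℂ → ℂ → ℂ → Prop) (x y : ℂ) : Prop := ∀ e, Un e → M 1 e (1 * x + e * y)

/-- and the eight nearest coordinate lines are present -/
def GoodG (M : ℂ → ℂ → ℂ → Prop) (x y : ℂ) : Prop :=
  Cp M x y ∧ ∀ u, Un u → M 1 0 (x + u) ∧ M 0 1 (y + u)

section
variable {M : ℂ → ℂ → ℂ → Prop} (S : Sys M 1)
include S

theorem orth_fix {e x y : ℂ} (he : Un e) (h : M (-conj e) (conj 1) (-conj e * x + conj 1 * y)) :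
    M 1 (-e) (1 * x + -e * y) := by
  refine S.par h (nn_pos_iff.2 (Or.inl one_ne_zero)) ?_
  unfold dt
  rw [map_one]
  linear_combination -he.mul_conj

theorem stepX {x y u e : ℂ} (hc : Cp M x y) (hM : M 1 0 (x + u)) (hu : Un u) (he : Un e) :
    M 0 1 (y - u * conj e) ∧ M 1 (-e) (x - e * y + 2 * u) := by
  have h1 : M 1 0 (1 * (x + u) + 0 * (y - u * conj e)) := by simpa using hM
  have h2 : M 1 e (1 * (x + u) + e * (y - u * conj e)) := by
    rw [show 1 * (x + u) + e * (y - u * conj e) = 1 * x + e * y by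
      linear_combination -u * he.mul_conj]
    exact hc e he
  have hd : dt 1 0 1 e ≠ 0 := by
    intro h0
    have := he.normSq
    rw [show e = 0 by simpa [dt] using h0] at this
    simp at this
  rcases S.dich ⟨_, _, _, _, h1, h2, hd⟩ (hc (I * e) (un_I.mul he)) (by
    rw [show 1 * (x + u) + I * e * (y - u * conj e) - (1 * x + I * e * y) = u * (1 - I) by
      linear_combination -u * I * he.mul_conj]
    simp [nn, hu.normSq, he.normSq, normSq_one_sub_I]; norm_num) with h | h
  · have := h.2 _ _ _ _ h1 h2 hd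
    simp [dt, nn, he.normSq] at this
    norm_num at this
  · constructor
    · simpa using (h.1 _ _ h1).2
    · have := orth_fix S he (h.1 _ _ h2).2
      rwa [show 1 * (x + u) + -e * (y - u * conj e) = x - e * y + 2 * u by
        linear_combination u * he.mul_conj] at this

theorem stepY {x y u e : ℂ} (hc : Cp M x y) (hM : M 0 1 (y + u)) (hu : Un u) (he : Un e) :
    M 1 0 (x - e * u) ∧ M 1 (-e) (x - e * y - 2 * e * u) := by
  have h1 : M 0 1 (0 * (x - e * u) + 1 * (y + u)) := by simpa using hM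
  have h2 : M 1 e (1 * (x - e * u) + e * (y + u)) := by
    rw [show 1 * (x - e * u) + e * (y + u) = 1 * x + e * y by ring]
    exact hc e he
  have hd : dt 0 1 1 e ≠ 0 := by simp [dt]
  rcases S.dich ⟨_, _, _, _, h1, h2, hd⟩ (hc (I * e) (un_I.mul he)) (by
    rw [show 1 * (x - e * u) + I * e * (y + u) - (1 * x + I * e * y) = e * u * (I - 1) by ring]
    simp [nn, hu.normSq, he.normSq, normSq_I_sub_one]; norm_num) with h | h
  · have := h.2 _ _ _ _ h1 h2 hd
    simp [dt, nn, he.normSq] at this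
    norm_num at this
  · constructor
    · have := S.par (h.1 _ _ h1).2 (u := 1) (v := 0) (nn_pos_iff.2 (Or.inl one_ne_zero))
        (by simp [dt])
      simpa using this
    · have := orth_fix S he (h.1 _ _ h2).2
      rwa [show 1 * (x - e * u) + -e * (y + u) = x - e * y - 2 * e * u by ring] at this

theorem goodG_ofX {x y u : ℂ} (hc : Cp M x y) (hM : M 1 0 (x + u)) (hu : Un u) : GoodG M x y := by
  have hy : ∀ v, Un v → M 0 1 (y + v) := by
    intro v hv
    have := (stepX S hc hM hu (hu.mul hv.conj).neg).1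
    rwa [show y - u * conj (-(u * conj v)) = y + v by
      simp only [map_neg, map_mul, conj_conj]; linear_combination v * hu.mul_conj] at this
  refine ⟨hc, fun v hv => ⟨?_, hy v hv⟩⟩
  have := (stepY S hc (hy 1 un_one) un_one hv.neg).1
  rwa [show x - -v * 1 = x + v by ring] at this

theorem goodG_ofY {x y u : ℂ} (hc : Cp M x y) (hM : M 0 1 (y + u)) (hu : Un u) : GoodG M x y := by
  have := (stepY S hc hM hu un_one).1
  rw [show x - 1 * u = x + -u by ring] at this
  exact goodG_ofX S hc this hu.neg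

theorem goodG_moveX {x y u : ℂ} (h : GoodG M x y) (hu : Un u) : GoodG M (x + 2 * u) y := by
  refine goodG_ofY S (fun e he => ?_) (h.2 1 un_one).2 un_one
  have := (stepX S h.1 (h.2 u hu).1 hu he.neg).2
  rwa [neg_neg, show x - -e * y + 2 * u = 1 * (x + 2 * u) + e * y by ring] at this

theorem goodG_moveY {x y u : ℂ} (h : GoodG M x y) (hu : Un u) : GoodG M x (y + 2 * u) := by
  refine goodG_ofX S (fun e he => ?_) (h.2 1 un_one).1 un_one
  have := (stepY S h.1 (h.2 u hu).2 hu he.neg).2
  rwa [neg_neg, show x - -e * y - 2 * -e * u = 1 * x + e * (y + 2 * u) by ring] at this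

theorem goodG_moveD {x y u : ℂ} (h : GoodG M x y) (hu : Un u) :
    GoodG M (x + (1 + I) * u) (y + (1 + I) * u) := by
  have h1 : M 1 (-1) (1 * (x + (1 + I) * u) + -1 * (y + (1 + I) * u)) := by
    rw [show 1 * (x + (1 + I) * u) + -1 * (y + (1 + I) * u) = 1 * x + -1 * y by ring]
    exact h.1 _ un_one.neg
  have h2 : M 1 I (1 * (x + (1 + I) * u) + I * (y + (1 + I) * u)) := by
    have := (stepX S h.1 (h.2 _ (un_I.mul hu)).1 (un_I.mul hu) un_I.neg).2
    rwa [neg_neg, show x - -I * y + 2 * (I * u) = 1 * (x + (1 + I) * u) + I * (y + (1 + I) * u) by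
      linear_combination -u * I_mul_I] at this
  have h3 : M 1 (-I) (1 * (x + (1 + I) * u) + -I * (y + (1 + I) * u)) := by
    have := (stepX S h.1 (h.2 _ hu).1 hu un_I).2
    rwa [show x - I * y + 2 * u = 1 * (x + (1 + I) * u) + -I * (y + (1 + I) * u) by
      linear_combination u * I_mul_I] at this
  have e : dt 1 (-1) 1 I = I + 1 := by unfold dt; ring
  have hd : dt 1 (-1) 1 I ≠ 0 := by
    rw [e]
    intro h0
    have := normSq_I_add_one
    rw [h0] at this
    simp at this
  have h4 : M 1 1 (1 * (x + (1 + I) * u) + 1 * (y + (1 + I) * u)) := by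
    rcases S.dich ⟨_, _, _, _, h1, h2, hd⟩ (h.2 _ hu).1 (by
      rw [show 1 * (x + (1 + I) * u) + 0 * (y + (1 + I) * u) - (x + u) = I * u by ring]
      simp [nn, hu.normSq]) with h | h
    · have := h.2 _ _ _ _ h1 h2 hd
      rw [e, normSq_I_add_one] at this
      simp [nn] at this
      norm_num at this
    · have := orth_fix S un_one.neg (h.1 _ _ h1).2
      rwa [neg_neg] at this
  refine goodG_ofX S (u := -(I * u)) ?_ ?_ (un_I.mul hu).neg
  · rintro e (rfl | rfl | rfl | rfl) <;> assumption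
  · rw [show x + (1 + I) * u + -(I * u) = x + u by ring]
    exact (h.2 _ hu).1

omit S in
theorem gau_ind (P : ℂ → Prop) (h0 : P 0) (hs : ∀ z u, Un u → P z → P (z + u)) (m n : ℤ) :
    P (m + n * I) := by
  have a1 : ∀ u : ℂ, Un u → ∀ z, P z → ∀ m : ℤ, P (z + m * u) := by
    intro u hu z hz m
    induction m using Int.induction_on with
    | zero => simpa using hz
    | succ i ih =>
      have := hs _ u hu ih
      convert this using 1
      push_cast; ring
    | pred i ih =>
      have := hs _ _ hu.neg ih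
      convert this using 1
      push_cast; ring
  have b2 := a1 I un_I _ (a1 1 un_one 0 h0 m) n
  simpa using b2

theorem goodG_X (h0 : GoodG M 0 0) (m n : ℤ) : GoodG M (2 * (m + n * I)) 0 :=
  gau_ind (fun z => GoodG M (2 * z) 0) (by simpa using h0)
    (fun z u hu hz => by rw [mul_add]; exact goodG_moveX S hz hu) m n

theorem goodG_Y (h0 : GoodG M 0 0) (m n : ℤ) : GoodG M 0 (2 * (m + n * I)) :=
  gau_ind (fun z => GoodG M 0 (2 * z)) (by simpa using h0)
    (fun z u hu hz => by rw [mul_add]; exact goodG_moveY S hz hu) m n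

theorem goodG_D (h0 : GoodG M 0 0) (m n : ℤ) :
    GoodG M ((1 + I) * (m + n * I)) ((1 + I) * (m + n * I)) :=
  gau_ind (fun z => GoodG M ((1 + I) * z) ((1 + I) * z)) (by simpa using h0)
    (fun z u hu hz => by rw [mul_add]; exact goodG_moveD S hz hu) m n

end

theorem near_gau (z : ℂ) : ∃ m n : ℤ, normSq (z - (m + n * I)) ≤ 1 / 2 := by
  refine ⟨round z.re, round z.im, ?_⟩
  have h1 := abs_le.1 (abs_sub_round z.re)
  have h2 := abs_le.1 (abs_sub_round z.im)
  simp only [normSq_apply, sub_re, sub_im, add_re, add_im, mul_re, mul_im, intCast_re, intCast_im,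
    I_re, I_im]
  nlinarith [h1.1, h1.2, h2.1, h2.2]

theorem near_odd (z : ℂ) : ∃ (m n : ℤ) (e : ℂ), Un e ∧ normSq (z - (2 * (m + n * I) - e)) ≤ 1 := by
  have h1 := abs_le.1 (abs_sub_round (z.re / 2))
  have h2 := abs_le.1 (abs_sub_round (z.im / 2))
  have key : ∀ e : ℂ, normSq (z - (2 * ((round (z.re / 2) : ℤ) + (round (z.im / 2) : ℤ) * I) - e)) =
      (z.re - 2 * round (z.re / 2) + e.re) ^ 2 + (z.im - 2 * round (z.im / 2) + e.im) ^ 2 := by
    intro e
    simp only [normSq_apply, sub_re, sub_im, add_re, add_im, mul_re, mul_im, intCast_re,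
      intCast_im, I_re, I_im, re_ofNat, im_ofNat]
    ring
  obtain ⟨a, ha⟩ : ∃ a : ℝ, a = z.re - 2 * round (z.re / 2) := ⟨_, rfl⟩
  obtain ⟨b, hb⟩ : ∃ a : ℝ, a = z.im - 2 * round (z.im / 2) := ⟨_, rfl⟩
  rw [← ha, ← hb] at key
  have a1 : -1 ≤ a := by linarith [h1.1]
  have a2 : a ≤ 1 := by linarith [h1.2]
  have b1 : -1 ≤ b := by linarith [h2.1]
  have b2 : b ≤ 1 := by linarith [h2.2]
  refine ⟨round (z.re / 2), round (z.im / 2), ?_⟩
  rcases le_total b a with h | h <;> rcases le_total b (-a) with h' | h'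
  · exact ⟨I, un_I, by rw [key]; simp; nlinarith⟩
  · exact ⟨-1, un_one.neg, by rw [key]; simp; nlinarith⟩
  · exact ⟨1, un_one, by rw [key]; simp; nlinarith⟩
  · exact ⟨-I, un_I.neg, by rw [key]; simp; nlinarith⟩

theorem gau_parity (m n : ℤ) : ∃ p q : ℤ, (m + n * I : ℂ) = (1 + I) * (p + q * I) ∨
    (m + n * I : ℂ) = 1 + (1 + I) * (p + q * I) := by
  rcases Int.even_or_odd' (m + n) with ⟨k, h | h⟩
  · refine ⟨k, n - k, Or.inl ?_⟩
    have : (m : ℂ) = 2 * k - n := by exact_mod_cast (by omega : m = 2 * k - n)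
    rw [this]; push_cast; linear_combination (k - n : ℂ) * I_mul_I
  · refine ⟨k, n - k, Or.inr ?_⟩
    have : (m : ℂ) = 2 * k + 1 - n := by exact_mod_cast (by omega : m = 2 * k + 1 - n)
    rw [this]; push_cast; linear_combination (k - n : ℂ) * I_mul_I

/-- The Gaussian family as a predicate on equations. -/
def StdG (a b c : ℂ) : Prop := ∃ k : ℂ, k ≠ 0 ∧ ∃ m n : ℤ,
  (((a = k ∧ b = 0) ∨ (a = 0 ∧ b = k)) ∧ c = k * (1 + (1 + I) * (m + n * I))) ∨
    ∃ e, Un e ∧ a = k ∧ b = k * e ∧ c = k * (2 * (m + n * I))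

theorem cp_four {M : ℂ → ℂ → ℂ → Prop} (S : Sys M 1) {x y u v : ℂ} (h : Cp M x y)
    (huv : M u v (u * x + v * y)) : u ≠ 0 ∧ v ≠ 0 := by
  have hn := nn_pos_iff.1 (S.ne _ _ _ huv)
  obtain ⟨i, hi⟩ := S.four (fun _ => 1) ![1, -1, I, -I] (fun i => by
    fin_cases i
    exacts [h _ un_one, h _ un_one.neg, h _ un_I, h _ un_I.neg]) (fun i j hij => by
    fin_cases i <;> fin_cases j <;> simp [dt, Complex.ext_iff] at hij ⊢ <;> norm_num) huv
  by_contra hc
  have : u = 0 ∨ v = 0 := by tauto
  fin_cases i <;> rcases this with rfl | rfl <;> simp [dt] at hi hn <;> exact hn hi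

theorem gau_iff {M : ℂ → ℂ → ℂ → Prop} (S : Sys M 1) (h0 : GoodG M 0 0) (a b c : ℂ) :
    M a b c ↔ StdG a b c := by
  have hD := goodG_D S h0
  have sC : ∀ x y, Cp M x y → Sing M x y := fun x y h =>
    ⟨_, _, _, _, h _ un_one, h _ un_one.neg, by simp [dt]; norm_num⟩
  constructor
  · intro hM
    have hn := S.ne _ _ _ hM
    have low : ∀ x y, Sing M x y → normSq (a * x + b * y - c) < nn a b → c = a * x + b * y := by
      intro x y hs hlt
      by_contra hc
      have := S.lower _ _ hs _ _ _ hM hc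
      linarith
    by_cases hb : b = 0
    · subst hb
      have ha : a ≠ 0 := by simpa using nn_pos_iff.1 hn
      have hp := normSq_pos.2 ha
      obtain ⟨m, n, h⟩ := near_gau (c / a)
      have hlt : ∀ y, normSq (a * (m + n * I) + 0 * y - c) < nn a 0 := by
        intro y
        rw [show a * (m + n * I) + 0 * y - c = -a * (c / a - (m + n * I)) by field_simp; ring,
          map_mul, normSq_neg]
        simp only [nn, map_zero]
        nlinarith
      obtain ⟨p, q, e | e⟩ := gau_parity m n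
      · rw [e] at hlt
        have := low _ _ (sC _ _ (hD p q).1) (hlt _)
        exact absurd rfl (cp_four S (hD p q).1 (this ▸ hM)).2
      · rw [e] at hlt
        have := low _ 1 ⟨1, 0, 0, 1, by simpa [add_comm] using ((hD p q).2 1 un_one).1,
          by simpa using (h0.2 1 un_one).2, by simp [dt]⟩ (hlt _)
        exact ⟨a, ha, p, q, Or.inl ⟨Or.inl ⟨rfl, rfl⟩, by rw [this]; ring⟩⟩
    have hp := normSq_pos.2 hb
    by_cases ha : a = 0
    · subst ha
      obtain ⟨m, n, h⟩ := near_gau (c / b)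
      have hlt : ∀ y, normSq (0 * y + b * (m + n * I) - c) < nn 0 b := by
        intro y
        rw [show 0 * y + b * (m + n * I) - c = -b * (c / b - (m + n * I)) by field_simp; ring,
          map_mul, normSq_neg]
        simp only [nn, map_zero]
        nlinarith
      obtain ⟨p, q, e | e⟩ := gau_parity m n
      · rw [e] at hlt
        have := low _ _ (sC _ _ (hD p q).1) (hlt _)
        exact absurd rfl (cp_four S (hD p q).1 (this ▸ hM)).1
      · rw [e] at hlt
        have := low 1 _ ⟨1, 0, 0, 1, by simpa using (h0.2 1 un_one).1,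
          by simpa [add_comm] using ((hD p q).2 1 un_one).2, by simp [dt]⟩ (hlt _)
        exact ⟨b, hb, p, q, Or.inl ⟨Or.inr ⟨rfl, rfl⟩, by rw [this]; ring⟩⟩
    have hq := normSq_pos.2 ha
    obtain ⟨m, n, f, hf, h⟩ := near_odd ((c - a) / b)
    have hg := goodG_Y S h0 m n
    have he := hf.conj
    have hef := hf.mul_conj
    have he0 : conj f ≠ 0 := right_ne_zero_of_mul_eq_one hef
    obtain ⟨s1, s2⟩ := stepX S hg.1 (hg.2 1 un_one).1 un_one he
    rw [conj_conj] at s1
    have hM4 : ∀ i : Fin 4, M (![1, 0, 1, 1] i) (![0, 1, conj f, -conj f] i)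
        (![1, 0, 1, 1] i * 1 + ![0, 1, conj f, -conj f] i * (2 * (m + n * I) - f)) := by
      intro i
      fin_cases i
      · simpa using (h0.2 1 un_one).1
      · simpa using s1
      · have := hg.1 _ he
        simp only [Fin.reduceFinMk, Matrix.cons_val]
        rwa [show 1 * 1 + conj f * (2 * (m + n * I) - f) = 1 * 0 + conj f * (2 * (m + n * I)) by
          linear_combination -hef]
      · simp only [Fin.reduceFinMk, Matrix.cons_val]
        rwa [show 1 * 1 + -conj f * (2 * (m + n * I) - f) =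
          0 - conj f * (2 * (m + n * I)) + 2 * 1 by linear_combination hef]
    have hc := low 1 (2 * (m + n * I) - f) ⟨_, _, _, _, hM4 0, hM4 1, by simp [dt]⟩ (by
      rw [show a * 1 + b * (2 * (m + n * I) - f) - c =
        -b * ((c - a) / b - (2 * (m + n * I) - f)) by field_simp; ring, map_mul, normSq_neg]
      simp only [nn]
      nlinarith)
    obtain ⟨i, hi⟩ := S.four _ _ hM4 (fun i j hij => by
      have : -conj f - conj f ≠ 0 := fun h0 => he0 (by linear_combination -h0 / 2)
      have : conj f + conj f ≠ 0 := fun h0 => he0 (by linear_combination h0 / 2)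
      fin_cases i <;> fin_cases j <;> simp_all [dt]) (hc ▸ hM)
    have hgau : ∀ e, Un e → ∃ p q : ℤ, e * (m + n * I) = p + q * I := by
      rintro e (rfl | rfl | rfl | rfl)
      · exact ⟨m, n, by ring⟩
      · exact ⟨-m, -n, by push_cast; ring⟩
      · exact ⟨-n, m, by push_cast; linear_combination (n : ℂ) * I_mul_I⟩
      · exact ⟨n, -m, by push_cast; linear_combination -(n : ℂ) * I_mul_I⟩
    fin_cases i
    · simp [dt, hb] at hi
    · simp [dt, ha] at hi
    · have hb' : b = a * conj f := by simp [dt] at hi; linear_combination -hi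
      obtain ⟨p, q, hpq⟩ := hgau _ he
      refine ⟨a, ha, p, q, Or.inr ⟨_, he, rfl, hb', ?_⟩⟩
      rw [hc, hb']
      linear_combination 2 * a * hpq - a * hef
    · have hb' : b = a * -conj f := by simp [dt] at hi; linear_combination -hi
      obtain ⟨p, q, hpq⟩ := hgau _ he.neg
      refine ⟨a, ha, p + 1, q, Or.inr ⟨_, he.neg, rfl, hb', ?_⟩⟩
      rw [hc, hb']
      push_cast
      linear_combination 2 * a * hpq + a * hef
  · rintro ⟨k, hk, m, n, ⟨⟨rfl, rfl⟩ | ⟨rfl, rfl⟩, rfl⟩ | ⟨e, he, rfl, rfl, rfl⟩⟩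
    · simpa [add_comm] using S.scale _ _ _ a ((hD m n).2 1 un_one).1 hk
    · simpa [add_comm] using S.scale _ _ _ b ((hD m n).2 1 un_one).2 hk
    · simpa using S.scale _ _ _ a ((goodG_X S h0 m n).1 e he) hk

end Pool.Agent.MP_d97ab6_al.H26
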