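import Pool.Agent.MP_d97ab6_al.H26.Eis
import Pool.Agent.MP_d97ab6_al.H26.Gau

namespace Pool.Agent.MP_d97ab6_al.H26

open Complex ComplexConjugate

theorem pull_pull (M : ℂ → ℂ → ℂ → Prop) (p q r w s t p' q' r' w' s' t' : ℂ) :
    Pull (Pull M p q r w s t) p' q' r' w' s' t' =
      Pull M (p' * p + q' * r) (p' * q + q' * w) (r' * p + w' * r) (r' * q + w' * w)
        (s' + p' * s + q' * t) (t' + r' * s + w' * t) := by
  funext a b c
  unfold Pull
  congr 1 <;> ring

/-- `M` is affinely equivalent to `N`. -/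
def Eqv (M N : ℂ → ℂ → ℂ → Prop) : Prop :=
  ∃ p q r w s t : ℂ, p * w - q * r ≠ 0 ∧ ∀ a b c, Pull M p q r w s t a b c ↔ N a b c

theorem Eqv.of_pull {M N : ℂ → ℂ → ℂ → Prop} {p q r w s t : ℂ} (hD : p * w - q * r ≠ 0)
    (h : Eqv (Pull M p q r w s t) N) : Eqv M N := by
  obtain ⟨p', q', r', w', s', t', hD', h⟩ := h
  rw [pull_pull] at h
  refine ⟨_, _, _, _, _, _, ?_, h⟩
  rw [show (p' * p + q' * r) * (r' * q + w' * w) - (p' * q + q' * w) * (r' * p + w' * r) =
    (p' * w' - q' * r') * (p * w - q * r) by ring]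
  exact mul_ne_zero hD' hD

theorem root_of_norm_two {z : ℂ} (h1 : normSq z = 1) (h2 : normSq (z - 1) = 2) :
    z = I ∨ z = -I := by
  simp only [normSq_apply, sub_re, sub_im, one_re, one_im] at h1 h2
  have hre : z.re = 0 := by linarith
  have : (z.im - 1) * (z.im + 1) = 0 := by rw [hre] at h1; linarith
  rcases mul_eq_zero.1 this with h | h
  · left; apply Complex.ext <;> simp [hre]; linarith
  · right; apply Complex.ext <;> simp [hre]; linarith

theorem root_of_norm_four {z : ℂ} (h1 : normSq z = 1) (h2 : normSq (z - 1) = 4) : z = -1 := by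
  simp only [normSq_apply, sub_re, sub_im, one_re, one_im] at h1 h2
  have hre : z.re = -1 := by linarith
  have : z.im = 0 := by rw [hre] at h1; nlinarith
  apply Complex.ext <;> simp [hre, this]

theorem gau_start {M : ℂ → ℂ → ℂ → Prop} (S : Sys M 1) (hs : Sing M 0 0) (h1 : M 1 0 1)
    (ho : ∀ a b, M a b (a * 0 + b * 0) → 2 * normSq (dt a b 1 0) = nn a b * nn 1 0 ∧
        M (-conj b) (conj a) (-conj b * 0 + conj a * 0))
    (hp : ∀ a b a' b', M a b (a * 0 + b * 0) → M a' b' (a' * 0 + b' * 0) → dt a b a' b' ≠ 0 →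
        2 * normSq (dt a b a' b') = nn a b * nn a' b' ∨
          normSq (dt a b a' b') = nn a b * nn a' b') : Eqv M StdG := by
  obtain ⟨A, B, hn, hM, hd, -, -⟩ := S.frame 0 0 hs
  have hA : ∀ j, A j ≠ 0 := by
    intro j hj
    have a := (ho _ _ (hM j)).1
    have b := hn j
    rw [b] at a
    simp [dt, nn, hj] at a b
    linarith
  obtain ⟨r, hr⟩ : ∃ r : Fin 4 → ℂ, ∀ j, r j * A j = B j :=
    ⟨fun j => B j / A j, fun j => div_mul_cancel₀ _ (hA j)⟩
  have hMr : ∀ j, M 1 (r j) (1 * 0 + r j * 0) := by
    intro j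
    refine S.par (hM j) (nn_pos_iff.2 (Or.inl one_ne_zero)) ?_
    unfold dt
    linear_combination -hr j
  have hnr : ∀ j, normSq (r j) = 1 := by
    intro j
    have := (ho _ _ (hMr j)).1
    simp [dt, nn] at this
    linarith
  have hneg : ∀ z, normSq z = 1 → M 1 z (1 * 0 + z * 0) → M 1 (-z) (1 * 0 + -z * 0) := by
    intro z hz h
    refine S.par (ho _ _ h).2 (nn_pos_iff.2 (Or.inl one_ne_zero)) ?_
    have := mul_conj z
    rw [hz] at this
    unfold dt
    rw [map_one]
    push_cast at this
    linear_combination -this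
  have hne : ∀ j k, j ≠ k → r j ≠ r k := by
    intro j k hjk h
    refine hd j k hjk ?_
    unfold dt
    linear_combination A k * hr j - A j * hr k - A k * A j * h
  have hr0 : r 0 ≠ 0 := by
    intro h
    have := hnr 0
    rw [h] at this
    simp at this
  have hrt : ∀ j, j ≠ 0 → r j = r 0 * I ∨ r j = -(r 0 * I) ∨ r j = -r 0 := by
    intro j hj
    have e : dt 1 (r 0) 1 (r j) = r j - r 0 := by unfold dt; ring
    have a := hp _ _ _ _ (hMr 0) (hMr j) (by rw [e]; exact sub_ne_zero.2 (hne j 0 hj))
    rw [e] at a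
    simp only [nn, hnr, map_one] at a
    have b1 : normSq (r j / r 0) = 1 := by rw [map_div₀, hnr, hnr]; norm_num
    have b2 : normSq (r j / r 0 - 1) = normSq (r j - r 0) := by
      rw [show r j / r 0 - 1 = (r j - r 0) / r 0 by field_simp, map_div₀, hnr, div_one]
    rcases a with a | a
    · rcases root_of_norm_two b1 (by linarith) with h | h
      · left; rw [← h]; field_simp
      · right; left; rw [← mul_neg, ← h]; field_simp
    · right; right
      have h := root_of_norm_four b1 (by linarith)
      rw [← mul_neg_one, ← h]; field_simp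
  have nI : normSq (r 0 * I) = 1 := by simp [hnr]
  have hI : M 1 (r 0 * I) (1 * 0 + r 0 * I * 0) := by
    have k : ∀ j, r j = -(r 0 * I) → M 1 (r 0 * I) (1 * 0 + r 0 * I * 0) := by
      intro j hj
      have := hneg _ (hnr j) (hMr j)
      rwa [hj, neg_neg] at this
    rcases hrt 1 (by decide) with h | h | h
    · exact h ▸ hMr 1
    · exact k _ h
    · rcases hrt 2 (by decide) with h' | h' | h'
      · exact h' ▸ hMr 2
      · exact k _ h'
      · exact absurd (h.trans h'.symm) (hne 1 2 (by decide))
  have S' := S.pull 1 0 0 (r 0) 0 0 1 one_pos (fun a b => by simp [nn, hnr]) (by simp [hnr])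
  rw [one_mul] at S'
  refine ⟨1, 0, 0, r 0, 0, 0, by simpa using hr0, gau_iff S' (goodG_ofX S' (u := 1) ?_ ?_ un_one)⟩
  · rintro e (rfl | rfl | rfl | rfl)
    · simpa [Pull] using hMr 0
    · simpa [Pull] using hneg _ (hnr 0) (hMr 0)
    · simpa [Pull, mul_comm] using hI
    · simpa [Pull, mul_comm] using hneg _ nI hI
  · simpa [Pull] using h1

/-- Classification of tight-frame families in which the least distance is attained. -/
theorem Sys.classify {M : ℂ → ℂ → ℂ → Prop} {h : ℝ} (S : Sys M h) {x y u v c : ℂ}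
    (hp : Sing M x y) (hM : M u v c) (hmin : normSq (u * x + v * y - c) = h * nn u v) :
    Eqv M StdE ∨ Eqv M StdG := by
  have huv := S.ne _ _ _ hM
  have hpos := S.pos
  have hc : u * x + v * y - c ≠ 0 := by
    intro h0
    rw [h0, map_zero] at hmin
    have := mul_pos hpos huv
    linarith
  obtain ⟨d, hd⟩ : ∃ d, d * (u * x + v * y - c) = -1 := ⟨-(u * x + v * y - c)⁻¹, by field_simp⟩
  have hnd : normSq d * (h * nn u v) = 1 := by
    rw [← hmin, ← map_mul, hd]; simp
  have hD : normSq (d * u * (d * conj u) - d * v * -(d * conj v)) = (1 / h) ^ 2 := by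
    rw [show d * u * (d * conj u) - d * v * -(d * conj v) = d * d * (u * conj u + v * conj v) by
      ring, mul_conj, mul_conj, ← ofReal_add, map_mul, map_mul, normSq_ofReal]
    have : normSq d * (normSq u + normSq v) = 1 / h := by
      unfold nn at hnd
      field_simp
      linarith
    rw [← this]; ring
  have hD0 : d * u * (d * conj u) - d * v * -(d * conj v) ≠ 0 := by
    intro h0
    rw [h0, map_zero] at hD
    have : 0 < (1 / h) ^ 2 := by positivity
    linarith
  have S' := S.pull (d * u) (d * v) (-(d * conj v)) (d * conj u) (-(d * u * x + d * v * y))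
    (-(-(d * conj v) * x + d * conj u * y)) (1 / h) (by positivity) (fun a b => by
      have e : nn (a * (d * u) + b * -(d * conj v)) (a * (d * v) + b * (d * conj u)) =
          normSq d * nn u v * nn a b := by
        simp only [nn, normSq_apply, add_re, add_im, mul_re, mul_im, neg_re, neg_im, conj_re,
          conj_im]
        ring
      rw [e]
      congr 1
      field_simp
      linarith) hD
  rw [mul_one_div_cancel hpos.ne'] at S'
  have hs := (sing_pull M _ _ _ _ (-(d * u * x + d * v * y))
    (-(-(d * conj v) * x + d * conj u * y)) x y hD0).2 hp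
  rw [add_neg_cancel, add_neg_cancel] at hs
  have hd0 : d ≠ 0 := by
    rintro rfl
    simp at hd
  have h1 : Pull M (d * u) (d * v) (-(d * conj v)) (d * conj u) (-(d * u * x + d * v * y))
      (-(-(d * conj v) * x + d * conj u * y)) 1 0 1 := by
    have := S.scale _ _ _ d hM hd0
    unfold Pull
    convert this using 1
    · ring
    · ring
    · linear_combination hd
  rcases S'.dich hs h1 (by simp [nn]) with ⟨k1, k2⟩ | ⟨k1, k2⟩
  · left
    obtain ⟨r, hr, hg⟩ := eis_start S' hs k1 h1 k2
    exact Eqv.of_pull hD0 (eis_std S' hr hg)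
  · right
    exact Eqv.of_pull hD0 (gau_start S' hs h1 k1 k2)

end Pool.Agent.MP_d97ab6_al.H26
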