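import Pool.Agent.MP_d97ab6_al.H26.Sys

namespace Pool.Agent.MP_d97ab6_al.H26

open Complex ComplexConjugate Finset

theorem dsum {ι : Type*} [Fintype ι] (f g : ι → ℝ) :
    ∑ i, ∑ j, f i * g j = (∑ i, f i) * ∑ j, g j := (sum_mul_sum _ _ _ _).symm

theorem design_real {ι P : Type*} [Fintype ι] [Fintype P] [DecidableEq ι] (e f g σ : ι → ℝ)
    (C : ℝ) (hC : 0 ≤ C) (χ : P → ι → ℝ) (hχ : ∀ p i, χ p i * χ p i = χ p i)
    (hn : ∀ i, e i * e i + f i * f i + g i * g i = 1)
    (he : ∑ i, σ i * e i = 0) (hf : ∑ i, σ i * f i = 0) (hg : ∑ i, σ i * g i = 0)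
    (hN : ∀ i j, i ≠ j → ∑ p, χ p i * χ p j =
      C * (σ i * σ j * (1 - (e i * e j + f i * f j + g i * g j))))
    (hrate : 4 * (Fintype.card P : ℝ) ≤ ∑ p, ∑ i, χ p i) (p : P) :
    ∑ i, χ p i = 4 ∧ ∑ i, χ p i * e i = 0 ∧ ∑ i, χ p i * f i = 0 ∧ ∑ i, χ p i * g i = 0 := by
  have key : ∀ φ : ι → ι → ℝ, (∀ i, φ i i = 1) → ∑ p, ∑ i, ∑ j, χ p i * χ p j * φ i j =
      ∑ p, ∑ i, χ p i +
        C * ∑ i, ∑ j, σ i * σ j * (1 - (e i * e j + f i * f j + g i * g j)) * φ i j := by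
    intro φ hφ
    rw [sum_comm, sum_comm (f := fun p i => χ p i), mul_sum, ← sum_add_distrib]
    refine sum_congr rfl fun i _ => ?_
    rw [sum_comm, mul_sum]
    have : ∀ j, ∑ p, χ p i * χ p j * φ i j = (if i = j then ∑ p, χ p i else 0) +
        C * (σ i * σ j * (1 - (e i * e j + f i * f j + g i * g j)) * φ i j) := by
      intro j
      rw [← sum_mul]
      split_ifs with h
      · subst h
        simp [hχ, hn, hφ]
      · rw [hN i j h]; ring
    simp only [this, sum_add_distrib, sum_ite_eq, mem_univ, if_true]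
  obtain ⟨W, hW⟩ : ∃ W, W = ∑ i, σ i := ⟨_, rfl⟩
  have E1 := key (fun _ _ => 1) fun _ => rfl
  have E2 := key (fun i j => e i * e j + f i * f j + g i * g j) hn
  have a1 : ∑ i, ∑ j, σ i * σ j * (1 - (e i * e j + f i * f j + g i * g j)) * 1 = W * W := by
    have : ∀ i j, σ i * σ j * (1 - (e i * e j + f i * f j + g i * g j)) * 1 =
      σ i * σ j - (σ i * e i) * (σ j * e j) - (σ i * f i) * (σ j * f j) -
        (σ i * g i) * (σ j * g j) := fun i j => by ring
    simp only [this, sum_sub_distrib, dsum, he, hf, hg, hW]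
    ring
  have a2 : ∑ i, ∑ j, σ i * σ j * (1 - (e i * e j + f i * f j + g i * g j)) *
      (e i * e j + f i * f j + g i * g j) ≤ -(W * W / 3) := by
    have : ∀ i j, σ i * σ j * (1 - (e i * e j + f i * f j + g i * g j)) *
        (e i * e j + f i * f j + g i * g j) =
      (σ i * e i) * (σ j * e j) + (σ i * f i) * (σ j * f j) + (σ i * g i) * (σ j * g j) -
        (σ i * (e i * e i)) * (σ j * (e j * e j)) - (σ i * (f i * f i)) * (σ j * (f j * f j)) -
        (σ i * (g i * g i)) * (σ j * (g j * g j)) -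
        (2 * (σ i * (e i * f i))) * (σ j * (e j * f j)) -
        (2 * (σ i * (e i * g i))) * (σ j * (e j * g j)) -
        (2 * (σ i * (f i * g i))) * (σ j * (f j * g j)) := fun i j => by ring
    simp only [this, sum_sub_distrib, sum_add_distrib, dsum, he, hf, hg]
    simp only [← mul_sum]
    have hW' : W = ∑ i, σ i * (e i * e i) + ∑ i, σ i * (f i * f i) + ∑ i, σ i * (g i * g i) := by
      rw [hW, ← sum_add_distrib, ← sum_add_distrib]
      exact sum_congr rfl fun i _ => by linear_combination -σ i * hn i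
    rw [hW']
    generalize ∑ i, σ i * (e i * e i) = x
    generalize ∑ i, σ i * (f i * f i) = y
    generalize ∑ i, σ i * (g i * g i) = z
    generalize ∑ i, σ i * (e i * f i) = u
    generalize ∑ i, σ i * (e i * g i) = v
    generalize ∑ i, σ i * (f i * g i) = w
    nlinarith [sq_nonneg (x - y), sq_nonneg (y - z), sq_nonneg (x - z), sq_nonneg u, sq_nonneg v,
      sq_nonneg w]
  have b1 : ∀ p, ∑ i, ∑ j, χ p i * χ p j * 1 = (∑ i, χ p i) ^ 2 := by
    intro p
    simp only [mul_one, dsum, sq]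
  have b2 : ∀ p, ∑ i, ∑ j, χ p i * χ p j * (e i * e j + f i * f j + g i * g j) =
      (∑ i, χ p i * e i) ^ 2 + (∑ i, χ p i * f i) ^ 2 + (∑ i, χ p i * g i) ^ 2 := by
    intro p
    have : ∀ i j, χ p i * χ p j * (e i * e j + f i * f j + g i * g j) =
      (χ p i * e i) * (χ p j * e j) + (χ p i * f i) * (χ p j * f j) +
        (χ p i * g i) * (χ p j * g j) := fun i j => by ring
    simp only [this, sum_add_distrib, dsum, sq]
  simp only [b1, a1] at E1
  simp only [b2] at E2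
  have c2 := mul_le_mul_of_nonneg_left a2 hC
  have n2 : 0 ≤ ∑ p, ((∑ i, χ p i * e i) ^ 2 + (∑ i, χ p i * f i) ^ 2 + (∑ i, χ p i * g i) ^ 2) :=
    sum_nonneg fun p _ => by positivity
  have n1 : 0 ≤ ∑ p, (∑ i, χ p i - 4) ^ 2 := sum_nonneg fun p _ => by positivity
  have x1 : ∑ p, (∑ i, χ p i - 4) ^ 2 =
      ∑ p, (∑ i, χ p i) ^ 2 - 8 * ∑ p, ∑ i, χ p i + 16 * Fintype.card P := by
    have : ∀ p, (∑ i, χ p i - 4) ^ 2 = (∑ i, χ p i) ^ 2 - 8 * ∑ i, χ p i + 16 := fun p => by ring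
    simp only [this, sum_add_distrib, sum_sub_distrib, ← mul_sum, sum_const, card_univ,
      nsmul_eq_mul]
    ring
  have z1 : ∑ p, (∑ i, χ p i - 4) ^ 2 = 0 := by linarith
  have z2 : ∑ p, ((∑ i, χ p i * e i) ^ 2 + (∑ i, χ p i * f i) ^ 2 + (∑ i, χ p i * g i) ^ 2) = 0 := by
    linarith
  have y1 := (sum_eq_zero_iff_of_nonneg fun p _ => by positivity).1 z1 p (mem_univ p)
  have y2 := (sum_eq_zero_iff_of_nonneg fun p _ => by positivity).1 z2 p (mem_univ p)
  have t1 := sq_nonneg (∑ i, χ p i * e i)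
  have t2 := sq_nonneg (∑ i, χ p i * f i)
  have t3 := sq_nonneg (∑ i, χ p i * g i)
  refine ⟨by simpa [sub_eq_zero] using y1, ?_, ?_, ?_⟩ <;> apply pow_eq_zero_iff two_ne_zero |>.1 <;>
    linarith

theorem design0 {ι P : Type*} [Fintype ι] [Fintype P] [DecidableEq ι] (a b : ι → ℂ) (ρ : ι → ℝ)
    (C : ℝ) (hC : 0 ≤ C) (χ : P → ι → ℝ) (hχ : ∀ p i, χ p i * χ p i = χ p i)
    (hn : ∀ i, 0 < nn (a i) (b i))
    (he : ∑ i, ρ i * s1 (a i) (b i) = 0) (hf : ∑ i, ρ i * s2 (a i) (b i) = 0)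
    (hg : ∑ i, ρ i * s3 (a i) (b i) = 0)
    (hN : ∀ i j, i ≠ j → ∑ p, χ p i * χ p j =
      C * (ρ i * ρ j * normSq (dt (a i) (b i) (a j) (b j))))
    (hrate : 4 * (Fintype.card P : ℝ) ≤ ∑ p, ∑ i, χ p i) (p : P) :
    ∑ i, χ p i = 4 ∧ ∀ u v, ∑ i, χ p i * (normSq (dt (a i) (b i) u v) / nn (a i) (b i)) =
      2 * nn u v := by
  obtain ⟨h1, h2, h3, h4⟩ := design_real (fun i => s1 (a i) (b i) / nn (a i) (b i))
    (fun i => s2 (a i) (b i) / nn (a i) (b i)) (fun i => s3 (a i) (b i) / nn (a i) (b i))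
    (fun i => ρ i * nn (a i) (b i)) (C / 2) (by linarith) χ hχ
    (fun i => by
      have := s_sq (a i) (b i)
      have := (hn i).ne'
      field_simp
      linarith)
    (by rw [← he]; exact sum_congr rfl fun i _ => by have := (hn i).ne'; field_simp)
    (by rw [← hf]; exact sum_congr rfl fun i _ => by have := (hn i).ne'; field_simp)
    (by rw [← hg]; exact sum_congr rfl fun i _ => by have := (hn i).ne'; field_simp)
    (fun i j hij => by
      rw [hN i j hij]
      have := normSq_dt (a i) (b i) (a j) (b j)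
      have := (hn i).ne'
      have := (hn j).ne'
      field_simp
      linear_combination (C * ρ i * ρ j) * normSq_dt (a i) (b i) (a j) (b j)) hrate p
  refine ⟨h1, fun u v => ?_⟩
  have : ∀ i, χ p i * (normSq (dt (a i) (b i) u v) / nn (a i) (b i)) =
      nn u v / 2 * χ p i - s1 u v / 2 * (χ p i * (s1 (a i) (b i) / nn (a i) (b i))) -
        s2 u v / 2 * (χ p i * (s2 (a i) (b i) / nn (a i) (b i))) -
        s3 u v / 2 * (χ p i * (s3 (a i) (b i) / nn (a i) (b i))) := by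
    intro i
    have := (hn i).ne'
    field_simp
    linear_combination (χ p i) * normSq_dt (a i) (b i) u v
  simp only [this, sum_sub_distrib, ← mul_sum, h1, h2, h3, h4]
  ring

/-- A change of coordinates puts the barycentre of the directions at the centre. -/
theorem exists_balance {ι : Type*} [Fintype ι] (a b : ι → ℂ) (ρ : ι → ℝ) (hρ : ∀ i, 0 < ρ i)
    (i0 j0 : ι) (hd : dt (a i0) (b i0) (a j0) (b j0) ≠ 0) :
    ∃ (s : ℝ) (k : ℂ), 0 < s ∧ ∑ i, ρ i * s1 (s * a i) (b i - k * a i) = 0 ∧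
      ∑ i, ρ i * s2 (s * a i) (b i - k * a i) = 0 ∧
      ∑ i, ρ i * s3 (s * a i) (b i - k * a i) = 0 := by
  have pos : ∀ (z : ι → ℂ) (i : ι), z i ≠ 0 → 0 < ∑ i, ρ i * normSq (z i) := fun z i hi =>
    sum_pos' (fun j _ => mul_nonneg (hρ j).le (normSq_nonneg _))
      ⟨i, mem_univ i, mul_pos (hρ i) (normSq_pos.2 hi)⟩
  have hA : 0 < ∑ i, ρ i * normSq (a i) := by
    by_cases h : a i0 = 0
    · exact pos a j0 (fun h' => hd (by simp [dt, h, h']))
    · exact pos a i0 h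
  obtain ⟨A, hA'⟩ : ∃ A, A = ∑ i, ρ i * normSq (a i) := ⟨_, rfl⟩
  rw [← hA'] at hA
  obtain ⟨k, hk1, hk2⟩ : ∃ k : ℂ, k.re * A = ∑ i, ρ i * ((a i).re * (b i).re + (a i).im * (b i).im) ∧
      k.im * A = ∑ i, ρ i * ((a i).re * (b i).im - (a i).im * (b i).re) :=
    ⟨⟨(∑ i, ρ i * ((a i).re * (b i).re + (a i).im * (b i).im)) / A,
      (∑ i, ρ i * ((a i).re * (b i).im - (a i).im * (b i).re)) / A⟩, div_mul_cancel₀ _ hA.ne',
      div_mul_cancel₀ _ hA.ne'⟩
  have hD : 0 < ∑ i, ρ i * normSq (b i - k * a i) := by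
    by_cases h : b i0 - k * a i0 = 0
    · refine pos (fun i => b i - k * a i) j0 (fun h' => hd ?_)
      unfold dt
      linear_combination a i0 * h' - a j0 * h
    · exact pos (fun i => b i - k * a i) i0 h
  obtain ⟨D, hD'⟩ : ∃ D, D = ∑ i, ρ i * normSq (b i - k * a i) := ⟨_, rfl⟩
  rw [← hD'] at hD
  have hs : √(D / A) * √(D / A) * A = D := by
    rw [Real.mul_self_sqrt (by positivity)]; field_simp
  refine ⟨√(D / A), k, by positivity, ?_, ?_, ?_⟩
  · have : ∀ i, ρ i * s1 ((√(D / A) : ℝ) * a i) (b i - k * a i) =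
        √(D / A) * √(D / A) * (ρ i * normSq (a i)) - ρ i * normSq (b i - k * a i) := by
      intro i
      simp only [s1, map_mul, normSq_ofReal]; ring
    simp only [this, sum_sub_distrib, ← mul_sum, ← hA', ← hD', hs, sub_self]
  · have : ∀ i, ρ i * s2 ((√(D / A) : ℝ) * a i) (b i - k * a i) =
        2 * √(D / A) * (ρ i * ((a i).re * (b i).re + (a i).im * (b i).im)) -
          2 * √(D / A) * k.re * (ρ i * normSq (a i)) := by
      intro i
      simp only [s2, normSq_apply, mul_re, mul_im, sub_re, sub_im, ofReal_re, ofReal_im]; ring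
    simp only [this, sum_sub_distrib, ← mul_sum, ← hA', ← hk1]
    ring
  · have : ∀ i, ρ i * s3 ((√(D / A) : ℝ) * a i) (b i - k * a i) =
        2 * √(D / A) * k.im * (ρ i * normSq (a i)) -
          2 * √(D / A) * (ρ i * ((a i).re * (b i).im - (a i).im * (b i).re)) := by
      intro i
      simp only [s3, normSq_apply, mul_re, mul_im, sub_re, sub_im, ofReal_re, ofReal_im]; ring
    simp only [this, sum_sub_distrib, ← mul_sum, ← hA', ← hk2]
    ring

/-- Equality case of the singularity rate inequality, finite form. -/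
theorem design {ι P : Type*} [Fintype ι] [Fintype P] [DecidableEq ι] (a b : ι → ℂ) (ρ : ι → ℝ)
    (hρ : ∀ i, 0 < ρ i) (C : ℝ) (hC : 0 ≤ C) (χ : P → ι → ℝ) (hχ : ∀ p i, χ p i * χ p i = χ p i)
    (hn : ∀ i, 0 < nn (a i) (b i)) (i0 j0 : ι) (hd : dt (a i0) (b i0) (a j0) (b j0) ≠ 0)
    (hN : ∀ i j, i ≠ j → ∑ p, χ p i * χ p j =
      C * (ρ i * ρ j * normSq (dt (a i) (b i) (a j) (b j))))
    (hrate : 4 * (Fintype.card P : ℝ) ≤ ∑ p, ∑ i, χ p i) :
    ∃ (s : ℝ) (k : ℂ), 0 < s ∧ ∀ p, ∑ i, χ p i = 4 ∧ ∀ u v,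
      ∑ i, χ p i * (normSq (dt (s * a i) (b i - k * a i) u v) / nn (s * a i) (b i - k * a i)) =
        2 * nn u v := by
  obtain ⟨s, k, hs, h1, h2, h3⟩ := exists_balance a b ρ hρ i0 j0 hd
  have hs' : (s : ℂ) ≠ 0 := by exact_mod_cast hs.ne'
  refine ⟨s, k, hs, design0 (fun i => s * a i) (fun i => b i - k * a i) ρ (C / (s * s))
    (by positivity) χ hχ (fun i => ?_) h1 h2 h3 (fun i j hij => ?_) hrate⟩
  · rw [nn_pos_iff]
    by_cases h : a i = 0
    · right
      simpa [h] using nn_pos_iff.1 (hn i)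
    · exact Or.inl (mul_ne_zero hs' h)
  · rw [hN i j hij, show dt (s * a i) (b i - k * a i) (s * a j) (b j - k * a j) =
      s * dt (a i) (b i) (a j) (b j) by unfold dt; ring, map_mul, normSq_ofReal]
    field_simp

end Pool.Agent.MP_d97ab6_al.H26
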