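import Pool.Agent.MP_d97ab6_al.H26.Index
import Pool.Agent.MP_d97ab6_al.H26.Design
import Pool.Agent.MP_d97ab6_al.H26.Core

namespace Pool.Agent.MP_d97ab6_al.H26

open Complex Module Submodule Finset

theorem line_shift (a b c : ℂ) (v : ℂ × ℂ) :
    (fun z => z + v) '' line a b c = line a b (c + (a * v.1 + b * v.2)) := by
  ext z
  constructor
  · rintro ⟨w, hw, rfl⟩
    simp only [line, Set.mem_ofPred_eq, Prod.fst_add, Prod.snd_add] at hw ⊢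
    linear_combination hw
  · intro hz
    refine ⟨z - v, ?_, by simp⟩
    simp only [line, Set.mem_ofPred_eq, Prod.fst_sub, Prod.snd_sub] at hz ⊢
    linear_combination hz

theorem line_scale (a b c k : ℂ) (hk : k ≠ 0) : line (k * a) (k * b) (k * c) = line a b c := by
  ext z
  simp only [line, Set.mem_ofPred_eq]
  constructor
  · intro h
    apply mul_left_cancel₀ hk
    linear_combination h
  · intro h
    linear_combination k * h

theorem exists_on_line {a b : ℂ} (h : a ≠ 0 ∨ b ≠ 0) (c : ℂ) :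
    ∃ z : ℂ × ℂ, a * z.1 + b * z.2 = c := by
  rcases h with h | h
  · exact ⟨(c / a, 0), by field_simp; ring⟩
  · exact ⟨(0, c / b), by field_simp; ring⟩

theorem line_eq {a b c a' b' c' : ℂ} (h : a ≠ 0 ∨ b ≠ 0) (h' : a' ≠ 0 ∨ b' ≠ 0)
    (e : line a b c = line a' b' c') : ∃ k, k ≠ 0 ∧ a = k * a' ∧ b = k * b' ∧ c = k * c' := by
  obtain ⟨z, hz⟩ := exists_on_line h c
  have h1 : z ∈ line a' b' c' := e ▸ hz
  have h2 : (z.1 + b, z.2 - a) ∈ line a' b' c' := by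
    rw [← e]
    simp only [line, Set.mem_ofPred_eq]
    linear_combination hz
  simp only [line, Set.mem_ofPred_eq] at h1 h2
  obtain ⟨k, hk, rfl, rfl⟩ := exists_scale (nn_pos_iff.2 h') (nn_pos_iff.2 h)
    (by unfold dt; linear_combination h1 - h2)
  exact ⟨k, hk, rfl, rfl, by linear_combination k * h1 - hz⟩

/-- normalised forms -/
def Can (d : ℂ × ℂ) : Prop := d.1 = 1 ∨ (d.1 = 0 ∧ d.2 = 1)

theorem Can.ne {d : ℂ × ℂ} (h : Can d) : d.1 ≠ 0 ∨ d.2 ≠ 0 := by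
  rcases h with h | h
  · left; simp [h]
  · right; simp [h.2]

theorem Can.eq {d d' : ℂ × ℂ} (h : Can d) (h' : Can d') (e : dt d.1 d.2 d'.1 d'.2 = 0) :
    d = d' := by
  unfold dt at e
  rcases h with h | ⟨h, g⟩ <;> rcases h' with h' | ⟨h', g'⟩
  · rw [h, h'] at e
    exact Prod.ext (h.trans h'.symm) (by linear_combination -e)
  · simp [h, h', g'] at e
  · simp [h, h', g] at e
  · exact Prod.ext (h.trans h'.symm) (g.trans g'.symm)

theorem exists_can {a b : ℂ} (h : a ≠ 0 ∨ b ≠ 0) :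
    ∃ (d : ℂ × ℂ) (k : ℂ), Can d ∧ k ≠ 0 ∧ a = k * d.1 ∧ b = k * d.2 := by
  by_cases ha : a = 0
  · exact ⟨(0, 1), b, Or.inr ⟨rfl, rfl⟩, h.resolve_left (not_not.2 ha), by simp [ha], by simp⟩
  · exact ⟨(1, b / a), a, Or.inl rfl, ha, by simp, by field_simp⟩

theorem Can.small {d : ℂ × ℂ} (h : Can d) (c : ℂ) : ∃ z ∈ line d.1 d.2 c, ‖z‖ ≤ ‖c‖ := by
  rcases h with h | ⟨h, g⟩
  · exact ⟨(c, 0), by simp [line, h], by simp⟩
  · exact ⟨(0, c), by simp [line, h, g], by simp⟩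

/-- value of a form -/
def ev (d p : ℂ × ℂ) : ℂ := d.1 * p.1 + d.2 * p.2

/-- equations of members of the family -/
def M0 (L : Set (Set (ℂ × ℂ))) (a b c : ℂ) : Prop := (a ≠ 0 ∨ b ≠ 0) ∧ line a b c ∈ L

/-- The hypotheses on the family. -/
structure Arr (Λ : Submodule ℤ (ℂ × ℂ)) (L : Set (Set (ℂ × ℂ))) (F : Finset (ℂ × ℂ)) : Prop where
  hline : ∀ l ∈ L, IsLine l
  hinv : ∀ l ∈ L, ∀ v ∈ Λ, (fun z => z + v) '' l ∈ L
  hfin : ∀ R : ℝ, {l ∈ L | ∃ z ∈ l, ‖z‖ ≤ R}.Finite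
  hF : ∀ p ∈ F, 2 ≤ mult L p
  hrep : ∀ p, 2 ≤ mult L p → ∃! q, q ∈ F ∧ p - q ∈ Λ

variable {Λ : Submodule ℤ (ℂ × ℂ)} {L : Set (Set (ℂ × ℂ))} {F : Finset (ℂ × ℂ)}

theorem Arr.shift (A : Arr Λ L F) {d : ℂ × ℂ} {c : ℂ} (h : line d.1 d.2 c ∈ L) {v : ℂ × ℂ}
    (hv : v ∈ Λ) : line d.1 d.2 (c + ev d v) ∈ L := by
  have := A.hinv _ h v hv
  rwa [line_shift] at this

theorem Arr.inc_iff (A : Arr Λ L F) {d p q : ℂ × ℂ} (hv : p - q ∈ Λ) :
    line d.1 d.2 (ev d p) ∈ L ↔ line d.1 d.2 (ev d q) ∈ L := by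
  constructor
  · intro h
    have := A.shift h (neg_mem hv)
    rwa [show ev d p + ev d (-(p - q)) = ev d q by simp [ev]; ring] at this
  · intro h
    have := A.shift h hv
    rwa [show ev d q + ev d (p - q) = ev d p by simp [ev]; ring] at this

theorem Arr.fin_c (A : Arr Λ L F) {d : ℂ × ℂ} (hd : Can d) (R : ℝ) :
    {c | line d.1 d.2 c ∈ L ∧ ‖c‖ ≤ R}.Finite := by
  refine Set.Finite.of_injOn (f := fun c => line d.1 d.2 c) (fun c hc => ?_) ?_ (A.hfin R)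
  · obtain ⟨z, hz, hz'⟩ := hd.small c
    exact ⟨hc.1, z, hz, hz'.trans hc.2⟩
  · intro c _ c' _ h
    obtain ⟨z, hz, -⟩ := hd.small c
    have h' : line d.1 d.2 c = line d.1 d.2 c' := h
    have hz' : z ∈ line d.1 d.2 c' := h' ▸ hz
    exact hz.symm.trans hz'

theorem Arr.through (A : Arr Λ L F) (p : ℂ × ℂ) : {l ∈ L | p ∈ l} =
    (fun d : ℂ × ℂ => line d.1 d.2 (ev d p)) '' {d | Can d ∧ line d.1 d.2 (ev d p) ∈ L} := by
  ext l
  constructor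
  · rintro ⟨hl, hp⟩
    obtain ⟨a, b, c, hab, rfl⟩ := A.hline l hl
    obtain ⟨d, k, hd, hk, rfl, rfl⟩ := exists_can hab
    have : c = k * ev d p := by
      simp only [line, Set.mem_ofPred_eq] at hp
      unfold ev
      linear_combination -hp
    rw [this, line_scale _ _ _ _ hk] at hl ⊢
    exact ⟨d, ⟨hd, hl⟩, rfl⟩
  · rintro ⟨d, ⟨-, hd⟩, rfl⟩
    exact ⟨hd, rfl⟩

theorem inj_dir (p : ℂ × ℂ) (s : Set (ℂ × ℂ)) (hs : ∀ d ∈ s, Can d) :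
    Set.InjOn (fun d : ℂ × ℂ => line d.1 d.2 (ev d p)) s := by
  intro d hd d' hd' h
  obtain ⟨k, -, h1, h2, -⟩ := line_eq (hs d hd).ne (hs d' hd').ne h
  exact (hs d hd).eq (hs d' hd') (by rw [h1, h2]; unfold dt; ring)

theorem Arr.fin_through (A : Arr Λ L F) (p : ℂ × ℂ) : {l ∈ L | p ∈ l}.Finite :=
  (A.hfin ‖p‖).subset fun _ hl => ⟨hl.1, p, hl.2, le_rfl⟩

theorem Arr.fin_dir (A : Arr Λ L F) (p : ℂ × ℂ) :
    {d | Can d ∧ line d.1 d.2 (ev d p) ∈ L}.Finite :=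
  Set.Finite.of_finite_image (A.through p ▸ A.fin_through p) (inj_dir p _ fun _ h => h.1)

theorem Arr.mult_eq (A : Arr Λ L F) (p : ℂ × ℂ) :
    mult L p = {d | Can d ∧ line d.1 d.2 (ev d p) ∈ L}.ncard := by
  rw [mult, A.through p, Set.InjOn.ncard_image (inj_dir p _ fun _ h => h.1)]

theorem Arr.two_le_iff (A : Arr Λ L F) (p : ℂ × ℂ) : 2 ≤ mult L p ↔ ∃ d d', Can d ∧ Can d' ∧
    d ≠ d' ∧ line d.1 d.2 (ev d p) ∈ L ∧ line d'.1 d'.2 (ev d' p) ∈ L := by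
  rw [A.mult_eq, Nat.succ_le_iff, Set.one_lt_ncard_iff (A.fin_dir p)]
  constructor
  · rintro ⟨d, d', h1, h2, h3⟩
    exact ⟨d, d', h1.1, h2.1, h3, h1.2, h2.2⟩
  · rintro ⟨d, d', h1, h2, h3, h4, h5⟩
    exact ⟨d, d', ⟨h1, h4⟩, ⟨h2, h5⟩, h3⟩

theorem m0_can {a b : ℂ} {p : ℂ × ℂ} (h : M0 L a b (a * p.1 + b * p.2)) :
    ∃ (d : ℂ × ℂ) (k : ℂ), Can d ∧ k ≠ 0 ∧ a = k * d.1 ∧ b = k * d.2 ∧
      line d.1 d.2 (ev d p) ∈ L := by
  obtain ⟨d, k, hd, hk, rfl, rfl⟩ := exists_can h.1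
  refine ⟨d, k, hd, hk, rfl, rfl, ?_⟩
  have := h.2
  rwa [show k * d.1 * p.1 + k * d.2 * p.2 = k * ev d p by unfold ev; ring,
    line_scale _ _ _ _ hk] at this

theorem Arr.sing_iff (A : Arr Λ L F) (p : ℂ × ℂ) : Sing (M0 L) p.1 p.2 ↔ 2 ≤ mult L p := by
  rw [A.two_le_iff]
  constructor
  · rintro ⟨a, b, a', b', h1, h2, h3⟩
    obtain ⟨d, k, hd, -, rfl, rfl, h4⟩ := m0_can h1
    obtain ⟨d', k', hd', -, rfl, rfl, h5⟩ := m0_can h2
    refine ⟨d, d', hd, hd', ?_, h4, h5⟩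
    rintro rfl
    exact h3 (by unfold dt; ring)
  · rintro ⟨d, d', h1, h2, h3, h4, h5⟩
    exact ⟨_, _, _, _, ⟨h1.ne, h4⟩, ⟨h2.ne, h5⟩, fun h => h3 (h1.eq h2 h)⟩

theorem exists_inter {d d' : ℂ × ℂ} (h : dt d.1 d.2 d'.1 d'.2 ≠ 0) (c c' : ℂ) :
    ∃ p, ev d p = c ∧ ev d' p = c' := by
  obtain ⟨x, y, h1, h2⟩ := exists_pt d.1 d.2 d'.1 d'.2 0 0 h c c'
  exact ⟨(x, y), by simp [ev, h1], by simp [ev, h2]⟩

/-- Every line has a translate through a point of `F`. -/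
theorem Arr.hit (A : Arr Λ L F) (hne : F.Nonempty) {d : ℂ × ℂ} (hd : Can d) {c : ℂ}
    (h : line d.1 d.2 c ∈ L) : ∃ q ∈ F, line d.1 d.2 (ev d q) ∈ L := by
  obtain ⟨q, hq⟩ := hne
  obtain ⟨d1, d2, h1, h2, h3, h4, h5⟩ := (A.two_le_iff q).1 (A.hF q hq)
  by_cases e : d = d1
  · exact ⟨q, hq, e ▸ h4⟩
  obtain ⟨p, p1, p2⟩ := exists_inter (fun h => e (hd.eq h1 h)) c (ev d1 q)
  obtain ⟨q', ⟨hq', hv⟩, -⟩ := A.hrep p ((A.two_le_iff p).2
    ⟨d, d1, hd, h1, e, p1 ▸ h, p2 ▸ h4⟩)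
  exact ⟨q', hq', (A.inc_iff hv).1 (p1 ▸ h)⟩

theorem Arr.fin_dirs (A : Arr Λ L F) (hne : F.Nonempty) :
    {d | Can d ∧ ∃ c, line d.1 d.2 c ∈ L}.Finite := by
  refine (F.finite_toSet.biUnion fun q _ => A.fin_dir q).subset ?_
  rintro d ⟨hd, c, h⟩
  obtain ⟨q, hq, h'⟩ := A.hit hne hd h
  exact Set.mem_biUnion hq ⟨hd, h'⟩

theorem Arr.basis (A : Arr Λ L F) [DiscreteTopology Λ] [IsZLattice ℝ Λ] {d : ℂ × ℂ} (hd : Can d)
    {c : ℂ} (h : line d.1 d.2 c ∈ L) :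
    ∃ β : Basis (Fin 2) ℝ ℂ, ∀ w, w ∈ span ℤ (Set.range β) ↔ ∃ v ∈ Λ, w = ev d v := by
  refine exists_basis Λ d.1 d.2 hd.ne ?_
  refine Set.Finite.of_injOn (f := fun w => c + w) ?_ (fun _ _ _ _ h => add_left_cancel h)
    (A.fin_c hd (‖c‖ + 1))
  rintro w ⟨⟨v, hv, rfl⟩, hw⟩
  exact ⟨A.shift h hv, (norm_add_le _ _).trans (by linarith)⟩

open Classical in
/-- number of parallel curves in a direction -/
noncomputable def nc (L : Set (Set (ℂ × ℂ))) (F : Finset (ℂ × ℂ)) (d : ℂ × ℂ)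
    (G : AddSubgroup ℂ) : Finset (ℂ ⧸ G) :=
  (F.filter fun p => line d.1 d.2 (ev d p) ∈ L).image fun p => QuotientAddGroup.mk (ev d p)

open Classical in
theorem Arr.count (A : Arr Λ L F) {d d' : ℂ × ℂ} (hd : Can d) (hd' : Can d') (hne : d ≠ d')
    (G G' : AddSubgroup ℂ) (hG : ∀ w, w ∈ G ↔ ∃ v ∈ Λ, w = ev d v)
    (hG' : ∀ w, w ∈ G' ↔ ∃ v ∈ Λ, w = ev d' v) (H : AddSubgroup (ℂ × ℂ))
    (hH : ∀ z, z ∈ H ↔ ev d z ∈ G ∧ ev d' z ∈ G') :
    (F.filter fun p => line d.1 d.2 (ev d p) ∈ L ∧ line d'.1 d'.2 (ev d' p) ∈ L).card =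
      (nc L F d G).card * (nc L F d' G').card * Λ.toAddSubgroup.relIndex H := by
  have hsub : ∀ d p q : ℂ × ℂ, ev d (p - q) = ev d p - ev d q := by
    intro d p q; simp [ev]; ring
  rw [card_eq_sum_card_fiberwise (t := nc L F d G ×ˢ nc L F d' G')
    (f := fun p => (QuotientAddGroup.mk (ev d p), QuotientAddGroup.mk (ev d' p))) (by
      intro p hp
      simp only [coe_filter, Set.mem_ofPred_eq] at hp
      simp only [coe_product, Set.mem_prod, mem_coe, nc]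
      exact ⟨mem_image_of_mem _ (mem_filter.2 ⟨hp.1, hp.2.1⟩),
        mem_image_of_mem _ (mem_filter.2 ⟨hp.1, hp.2.2⟩)⟩), ← card_product, ← smul_eq_mul,
    ← sum_const]
  refine sum_congr rfl ?_
  rintro ⟨x, x'⟩ hx
  obtain ⟨hx, hx'⟩ := mem_product.1 hx
  obtain ⟨p, hp, rfl⟩ := mem_image.1 hx
  obtain ⟨p', hp', rfl⟩ := mem_image.1 hx'
  have hp := (mem_filter.1 hp).2
  have hp' := (mem_filter.1 hp').2
  obtain ⟨z, z1, z2⟩ := exists_inter (fun h => hne (hd.eq hd' h)) (ev d p) (ev d' p')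
  have key : ∀ q, q - z ∈ H ↔ ((QuotientAddGroup.mk (ev d q) : ℂ ⧸ G),
      (QuotientAddGroup.mk (ev d' q) : ℂ ⧸ G')) =
      (QuotientAddGroup.mk (ev d p), QuotientAddGroup.mk (ev d' p')) := by
    intro q
    rw [hH, hsub, hsub, z1, z2, Prod.mk.injEq, QuotientAddGroup.eq_iff_sub_mem,
      QuotientAddGroup.eq_iff_sub_mem]
  have inc : ∀ q, q - z ∈ H → line d.1 d.2 (ev d q) ∈ L ∧ line d'.1 d'.2 (ev d' q) ∈ L := by
    intro q hq
    rw [hH, hsub, hsub, z1, z2, hG, hG'] at hq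
    obtain ⟨⟨v, hv, e⟩, ⟨v', hv', e'⟩⟩ := hq
    constructor
    · have := A.shift hp hv
      rwa [← e, add_sub_cancel] at this
    · have := A.shift hp' hv'
      rwa [← e', add_sub_cancel] at this
  have sing : ∀ q, q - z ∈ H → 2 ≤ mult L q := fun q hq =>
    (A.two_le_iff q).2 ⟨d, d', hd, hd', hne, inc q hq⟩
  refine card_coset Λ.toAddSubgroup H z _ (fun q hq => (key q).2 (mem_filter.1 hq).2) ?_ ?_
  · intro q hq
    obtain ⟨q', ⟨h1, h2⟩, -⟩ := A.hrep q (sing q hq)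
    have h3 : q' - z ∈ H := by
      have : q - q' ∈ H := (hH _).2 ⟨(hG _).2 ⟨_, h2, rfl⟩, (hG' _).2 ⟨_, h2, rfl⟩⟩
      convert H.sub_mem hq this using 1
      abel
    exact ⟨q', mem_filter.2 ⟨mem_filter.2 ⟨h1, inc q' h3⟩, (key q').1 h3⟩, h2⟩
  · intro q hq q' hq' h
    have h1 := (mem_filter.1 (mem_filter.1 hq).1).1
    have h2 := (mem_filter.1 (mem_filter.1 hq').1).1
    exact (A.hrep q (A.hF q h1)).unique ⟨h1, by simp⟩ ⟨h2, h⟩

open Classical in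
/-- After a change of coordinates all singular points are tight frames of four lines. -/
theorem Arr.tight (A : Arr Λ L F) [DiscreteTopology Λ] [IsZLattice ℝ Λ] (hne : F.Nonempty)
    (hrate : 4 * F.card ≤ ∑ p ∈ F, mult L p) : ∃ (s : ℝ) (k : ℂ), 0 < s ∧ ∀ p, 2 ≤ mult L p →
      ∃ T : Finset (ℂ × ℂ), (∀ d, d ∈ T ↔ Can d ∧ line d.1 d.2 (ev d p) ∈ L) ∧ T.card = 4 ∧
        ∀ u v, ∑ d ∈ T, normSq (dt (s * d.1) (d.2 - k * d.1) u v) / nn (s * d.1) (d.2 - k * d.1) =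
          2 * nn u v := by
  let D := (A.fin_dirs hne).toFinset
  have hD : ∀ d, d ∈ D ↔ Can d ∧ ∃ c, line d.1 d.2 c ∈ L := fun d => Set.Finite.mem_toFinset _
  have hcan : ∀ i : D, Can i.1 := fun i => ((hD _).1 i.2).1
  choose β hβ using fun i : D => A.basis (hcan i) ((hD _).1 i.2).2.choose_spec
  obtain ⟨C, hC, hI⟩ := index_formula Λ
  let χ : F → D → ℝ := fun p i => if line i.1.1 i.1.2 (ev i.1 p.1) ∈ L then 1 else 0
  have hsum : ∀ (p : F) (φ : ℂ × ℂ → ℝ), ∑ i : D, χ p i * φ i.1 =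
      ∑ d ∈ D.filter fun d => line d.1 d.2 (ev d p.1) ∈ L, φ d := by
    intro p φ
    rw [sum_filter, ← sum_coe_sort D]
    refine sum_congr rfl fun i _ => ?_
    simp only [χ]
    split_ifs <;> simp
  have hT : ∀ p d, d ∈ D.filter (fun d => line d.1 d.2 (ev d p) ∈ L) ↔
      Can d ∧ line d.1 d.2 (ev d p) ∈ L := by
    intro p d
    rw [mem_filter, hD]
    exact ⟨fun h => ⟨h.1.1, h.2⟩, fun h => ⟨⟨h.1, _, h.2⟩, h.2⟩⟩
  have hm : ∀ p : F, ∑ i : D, χ p i =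
      (D.filter fun d => line d.1 d.2 (ev d p.1) ∈ L).card := by
    intro p
    simpa using hsum p fun _ => 1
  have hm' : ∀ p, mult L p = (D.filter fun d => line d.1 d.2 (ev d p) ∈ L).card := by
    intro p
    rw [A.mult_eq, ← Set.ncard_coe_finset]
    congr 1
    ext d
    rw [mem_coe, hT]
    rfl
  obtain ⟨q, hq⟩ := id hne
  obtain ⟨d1, d2, h1, h2, h3, h4, h5⟩ := (A.two_le_iff q).1 (A.hF q hq)
  obtain ⟨s, k, hs, H⟩ := design (ι := D) (P := F) (fun i => i.1.1) (fun i => i.1.2)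
    (fun i => (nc L F i.1 (span ℤ (Set.range (β i))).toAddSubgroup).card * |(β i).det basisOneI|)
    (fun i => by
      obtain ⟨q, hq, h⟩ := A.hit hne (hcan i) ((hD _).1 i.2).2.choose_spec
      refine mul_pos ?_ (abs_pos.2 ((β i).isUnit_det basisOneI).ne_zero)
      exact_mod_cast card_pos.2 ⟨_, mem_image_of_mem _ (mem_filter.2 ⟨hq, h⟩)⟩)
    C hC χ (fun p i => by simp only [χ]; split_ifs <;> simp)
    (fun i => nn_pos_iff.2 (hcan i).ne) ⟨d1, (hD _).2 ⟨h1, _, h4⟩⟩ ⟨d2, (hD _).2 ⟨h2, _, h5⟩⟩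
    (fun h => h3 (h1.eq h2 h)) (fun i j hij => by
      have hij' : i.1 ≠ j.1 := fun h => hij (Subtype.ext h)
      obtain ⟨H, hH, hidx⟩ := hI i.1.1 i.1.2 j.1.1 j.1.2 (β i) (β j)
        (fun h => hij' ((hcan i).eq (hcan j) h)) (fun v hv => (hβ i _).2 ⟨v, hv, rfl⟩)
        (fun v hv => (hβ j _).2 ⟨v, hv, rfl⟩)
      have := A.count (hcan i) (hcan j) hij' (span ℤ (Set.range (β i))).toAddSubgroup
        (span ℤ (Set.range (β j))).toAddSubgroup (hβ i) (hβ j) H hH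
      have e : ∑ p : F, χ p i * χ p j = ((F.filter fun p => line i.1.1 i.1.2 (ev i.1 p) ∈ L ∧
          line j.1.1 j.1.2 (ev j.1 p) ∈ L).card : ℝ) := by
        rw [card_filter, Nat.cast_sum, ← sum_coe_sort F]
        refine sum_congr rfl fun p _ => ?_
        simp only [χ]
        by_cases t1 : line i.1.1 i.1.2 (ev i.1 p.1) ∈ L <;>
          by_cases t2 : line j.1.1 j.1.2 (ev j.1 p.1) ∈ L <;> simp [t1, t2]
      rw [e, this]
      push_cast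
      rw [hidx]
      ring) (by
      simp only [hm, ← hm', Fintype.card_coe]
      rw [sum_coe_sort F fun p => (mult L p : ℝ)]
      exact_mod_cast hrate)
  refine ⟨s, k, hs, fun p hp => ?_⟩
  obtain ⟨q', ⟨hq', hv⟩, -⟩ := A.hrep p hp
  obtain ⟨a1, a2⟩ := H ⟨q', hq'⟩
  refine ⟨D.filter fun d => line d.1 d.2 (ev d q') ∈ L, fun d => ?_, ?_, fun u v => ?_⟩
  · rw [hT, A.inc_iff hv]
  · rw [hm] at a1
    exact_mod_cast a1
  · rw [← a2 u v]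
    exact (hsum ⟨q', hq'⟩ fun d =>
      normSq (dt (s * d.1) (d.2 - k * d.1) u v) / nn (s * d.1) (d.2 - k * d.1)).symm

end Pool.Agent.MP_d97ab6_al.H26
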