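import Mathlib

namespace Pool.Agent.MP_d97ab6_al.H26

open Complex

theorem scalar_end (P Q R : ℝ) (hP : P ^ 2 ≤ (1 / 3) ^ 2) (hQ : Q ^ 2 ≤ (1 / 3) ^ 2)
    (hR : R ^ 2 ≤ (1 / 3) ^ 2) (hG : P ^ 2 + Q ^ 2 + R ^ 2 = 1 / 3)
    (h1 : -1 / 3 ≤ P + Q + R) (h2 : -1 / 3 ≤ P - Q - R) (h3 : -1 / 3 ≤ -P + Q - R)
    (h4 : -1 / 3 ≤ -P - Q + R) :
    P + Q + R = 1 ∨ P - Q - R = 1 ∨ -P + Q - R = 1 ∨ -P - Q + R = 1 := by
  have hP2 : (P - 1 / 3) * (P + 1 / 3) = 0 := by linarith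
  have hQ2 : (Q - 1 / 3) * (Q + 1 / 3) = 0 := by linarith
  have hR2 : (R - 1 / 3) * (R + 1 / 3) = 0 := by linarith
  clear hP hQ hR hG
  rcases mul_eq_zero.1 hP2 with a | a <;> rcases mul_eq_zero.1 hQ2 with b | b <;>
    rcases mul_eq_zero.1 hR2 with c | c
  all_goals clear hP2 hQ2 hR2
  all_goals first
    | (left; linarith)
    | (right; left; linarith)
    | (right; right; left; linarith)
    | (right; right; right; linarith)

/-- Scalar core of the minimal distance lemma. -/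
theorem scalar_core (X Y Z P Q R : ℝ) (hY : 0 ≤ Y) (hZ : 0 ≤ Z) (hXY : Y ≤ X) (hXZ : Z ≤ X)
    (hs : X + Y + Z = 1) (hG : X * Y * Z = P ^ 2 * Y * Z + Q ^ 2 * X * Z + R ^ 2 * X * Y)
    (h1 : 2 * X - 1 ≤ P + Q + R) (h2 : 2 * X - 1 ≤ P - Q - R) (h3 : 2 * X - 1 ≤ -P + Q - R)
    (h4 : 2 * X - 1 ≤ -P - Q + R) :
    (X = 1 / 3 ∧ Y = 1 / 3 ∧ Z = 1 / 3 ∧
      (P + Q + R = 1 ∨ P - Q - R = 1 ∨ -P + Q - R = 1 ∨ -P - Q + R = 1)) ∨
    (P = 0 ∧ Q = 0 ∧ R = 0 ∧ X = 1 / 2 ∧ (Y = 0 ∨ Z = 0)) := by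
  set m := 1 - 2 * X with hm
  have hP : P ^ 2 ≤ m ^ 2 := by apply sq_le_sq' <;> linarith
  have hQ : Q ^ 2 ≤ m ^ 2 := by apply sq_le_sq' <;> linarith
  have hR : R ^ 2 ≤ m ^ 2 := by apply sq_le_sq' <;> linarith
  have hm0 : 0 ≤ m := by linarith
  have hmY : m ≤ Y := by linarith
  have hmZ : m ≤ Z := by linarith
  have hmX : m ≤ X := by linarith
  have hX : 0 ≤ X := by linarith
  by_cases hYZ : Y = 0 ∨ Z = 0
  · right
    have hm00 : m = 0 := by rcases hYZ with h | h <;> linarith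
    have hP0 : P = 0 := by rw [hm00] at hP; nlinarith
    have hQ0 : Q = 0 := by rw [hm00] at hQ; nlinarith
    have hR0 : R = 0 := by rw [hm00] at hR; nlinarith
    exact ⟨hP0, hQ0, hR0, by linarith, hYZ⟩
  · left
    push Not at hYZ
    have hY' : 0 < Y := lt_of_le_of_ne hY (Ne.symm hYZ.1)
    have hZ' : 0 < Z := lt_of_le_of_ne hZ (Ne.symm hYZ.2)
    have hX' : 0 < X := by linarith
    have hT : 0 < X * Y * Z := by positivity
    have a1 : P ^ 2 * Y * Z ≤ m * (X * Y * Z) := by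
      have : P ^ 2 ≤ m * X := by nlinarith
      have h' : 0 ≤ Y * Z := by positivity
      nlinarith
    have a2 : Q ^ 2 * X * Z ≤ m * (X * Y * Z) := by
      have : Q ^ 2 ≤ m * Y := by nlinarith
      have h' : 0 ≤ X * Z := by positivity
      nlinarith
    have a3 : R ^ 2 * X * Y ≤ m * (X * Y * Z) := by
      have : R ^ 2 ≤ m * Z := by nlinarith
      have h' : 0 ≤ X * Y := by positivity
      nlinarith
    have hm3 : 1 / 3 ≤ m := by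
      by_contra hc
      push Not at hc
      nlinarith
    have hX3 : X = 1 / 3 := by linarith
    have hY3 : Y = 1 / 3 := by linarith
    have hZ3 : Z = 1 / 3 := by linarith
    refine ⟨hX3, hY3, hZ3, ?_⟩
    have hm' : m = 1 / 3 := by linarith
    rw [hm'] at hP hQ hR
    rw [hX3, hY3, hZ3] at hG
    exact scalar_end P Q R hP hQ hR (by linarith) (by linarith) (by linarith) (by linarith)
      (by linarith)

theorem gram (x1 x2 x3 y1 y2 y3 z1 z2 z3 u1 u2 u3 : ℝ)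
    (hu : u1 ^ 2 + u2 ^ 2 + u3 ^ 2 = 1) (hxy : x1 * y1 + x2 * y2 + x3 * y3 = 0)
    (hxz : x1 * z1 + x2 * z2 + x3 * z3 = 0) (hyz : y1 * z1 + y2 * z2 + y3 * z3 = 0)
    (X Y Z P Q R : ℝ) (hX : X = x1 ^ 2 + x2 ^ 2 + x3 ^ 2) (hY : Y = y1 ^ 2 + y2 ^ 2 + y3 ^ 2)
    (hZ : Z = z1 ^ 2 + z2 ^ 2 + z3 ^ 2) (hP : P = u1 * x1 + u2 * x2 + u3 * x3)
    (hQ : Q = u1 * y1 + u2 * y2 + u3 * y3) (hR : R = u1 * z1 + u2 * z2 + u3 * z3) :
    X * Y * Z = P ^ 2 * Y * Z + Q ^ 2 * X * Z + R ^ 2 * X * Y := by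
  have key : ∀ U a b c : ℝ, U = u1 ^ 2 + u2 ^ 2 + u3 ^ 2 → a = x1 * y1 + x2 * y2 + x3 * y3 →
      b = x1 * z1 + x2 * z2 + x3 * z3 → c = y1 * z1 + y2 * z2 + y3 * z3 →
      U * (X * Y * Z + 2 * a * b * c - X * c ^ 2 - Y * b ^ 2 - Z * a ^ 2) -
        P ^ 2 * (Y * Z - c ^ 2) - Q ^ 2 * (X * Z - b ^ 2) - R ^ 2 * (X * Y - a ^ 2) -
        2 * P * Q * (b * c - a * Z) - 2 * P * R * (a * c - b * Y) -
        2 * Q * R * (a * b - c * X) = 0 := by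
    intro U a b c hU ha hb hc
    subst hU ha hb hc hX hY hZ hP hQ hR
    ring
  have := key 1 0 0 0 hu.symm hxy.symm hxz.symm hyz.symm
  linarith

/-- The same for all orders of `X, Y, Z`. -/
theorem scalar_core' (X Y Z P Q R : ℝ) (hX : 0 ≤ X) (hY : 0 ≤ Y) (hZ : 0 ≤ Z)
    (hs : X + Y + Z = 1) (hG : X * Y * Z = P ^ 2 * Y * Z + Q ^ 2 * X * Z + R ^ 2 * X * Y)
    (h : ∀ T, (T = X ∨ T = Y ∨ T = Z) → 2 * T - 1 ≤ P + Q + R ∧ 2 * T - 1 ≤ P - Q - R ∧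
      2 * T - 1 ≤ -P + Q - R ∧ 2 * T - 1 ≤ -P - Q + R) :
    (X = 1 / 3 ∧ Y = 1 / 3 ∧ Z = 1 / 3 ∧
      (P + Q + R = 1 ∨ P - Q - R = 1 ∨ -P + Q - R = 1 ∨ -P - Q + R = 1)) ∨
    (P = 0 ∧ Q = 0 ∧ R = 0 ∧ ((X = 0 ∧ Y = 1 / 2 ∧ Z = 1 / 2) ∨ (X = 1 / 2 ∧ Y = 0 ∧ Z = 1 / 2) ∨
      (X = 1 / 2 ∧ Y = 1 / 2 ∧ Z = 0))) := by
  obtain ⟨a1, a2, a3, a4⟩ := h X (Or.inl rfl)
  obtain ⟨b1, b2, b3, b4⟩ := h Y (Or.inr (Or.inl rfl))
  obtain ⟨c1, c2, c3, c4⟩ := h Z (Or.inr (Or.inr rfl))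
  clear h
  by_cases h1 : Y ≤ X ∧ Z ≤ X
  · rcases scalar_core X Y Z P Q R hY hZ h1.1 h1.2 hs hG a1 a2 a3 a4 with h | h
    · exact Or.inl h
    · obtain ⟨p, q, r, e, f | f⟩ := h
      · exact Or.inr ⟨p, q, r, Or.inr (Or.inl ⟨e, f, by linarith⟩)⟩
      · exact Or.inr ⟨p, q, r, Or.inr (Or.inr ⟨e, by linarith, f⟩)⟩
  by_cases h2 : X ≤ Y ∧ Z ≤ Y
  · rcases scalar_core Y X Z Q P R hX hZ h2.1 h2.2 (by linarith) (by linarith) (by linarith)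
      (by linarith) (by linarith) (by linarith) with h | h
    · obtain ⟨p, q, r, e⟩ := h
      refine Or.inl ⟨q, p, r, ?_⟩
      rcases e with e | e | e | e
      · left; linarith
      · right; right; left; linarith
      · right; left; linarith
      · right; right; right; linarith
    · obtain ⟨p, q, r, e, f | f⟩ := h
      · exact Or.inr ⟨q, p, r, Or.inl ⟨f, e, by linarith⟩⟩
      · exact Or.inr ⟨q, p, r, Or.inr (Or.inr ⟨by linarith, e, f⟩)⟩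
  have h3 : X ≤ Z ∧ Y ≤ Z := by
    constructor <;> by_contra hc <;> push Not at hc h1 h2 <;>
      rcases le_total X Y with t | t <;> first
        | (have := h1 t; linarith)
        | (have := h2 t; linarith)
  rcases scalar_core Z X Y R P Q hX hY h3.1 h3.2 (by linarith) (by linarith) (by linarith)
      (by linarith) (by linarith) (by linarith) with h | h
  · obtain ⟨p, q, r, e⟩ := h
    refine Or.inl ⟨q, r, p, ?_⟩
    rcases e with e | e | e | e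
    · left; linarith
    · right; right; right; linarith
    · right; left; linarith
    · right; right; left; linarith
  · obtain ⟨p, q, r, e, f | f⟩ := h
    · exact Or.inr ⟨q, r, p, Or.inl ⟨f, by linarith, e⟩⟩
    · exact Or.inr ⟨q, r, p, Or.inr (Or.inl ⟨by linarith, f, e⟩)⟩

/-- Four unit vectors of `ℝ³` with sum zero, and a unit vector `u` that is at least as close to
each of them as the other three are. -/
theorem vec_core (e f g : Fin 4 → ℝ) (u1 u2 u3 : ℝ) (hu : u1 ^ 2 + u2 ^ 2 + u3 ^ 2 = 1)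
    (hn : ∀ i, e i ^ 2 + f i ^ 2 + g i ^ 2 = 1)
    (he : e 0 + e 1 + e 2 + e 3 = 0) (hf : f 0 + f 1 + f 2 + f 3 = 0)
    (hg : g 0 + g 1 + g 2 + g 3 = 0)
    (hle : ∀ i j, i ≠ j → e i * e j + f i * f j + g i * g j ≤ e j * u1 + f j * u2 + g j * u3) :
    ((∀ i j, i ≠ j → e i * e j + f i * f j + g i * g j = -1 / 3) ∧
      ∃ i, e i * u1 + f i * u2 + g i * u3 = 1) ∨
    ((∀ i, e i * u1 + f i * u2 + g i * u3 = 0) ∧
      (∀ i j, i ≠ j → e i * e j + f i * f j + g i * g j = 0 ∨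
        e i * e j + f i * f j + g i * g j = -1) ∧
      ∀ i, ∃ j, e i * e j + f i * f j + g i * g j = -1) := by
  have n0 := hn 0
  have n1 := hn 1
  have n2 := hn 2
  have n3 := hn 3
  have e3 : e 3 = -e 0 - e 1 - e 2 := by linarith
  have f3 : f 3 = -f 0 - f 1 - f 2 := by linarith
  have g3 : g 3 = -g 0 - g 1 - g 2 := by linarith
  obtain ⟨X, hX⟩ : ∃ X, X = ((e 0 + e 1) / 2) ^ 2 + ((f 0 + f 1) / 2) ^ 2 + ((g 0 + g 1) / 2) ^ 2 :=
    ⟨_, rfl⟩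
  obtain ⟨Y, hY⟩ : ∃ X, X = ((e 0 + e 2) / 2) ^ 2 + ((f 0 + f 2) / 2) ^ 2 + ((g 0 + g 2) / 2) ^ 2 :=
    ⟨_, rfl⟩
  obtain ⟨Z, hZ⟩ : ∃ X, X = ((e 0 + e 3) / 2) ^ 2 + ((f 0 + f 3) / 2) ^ 2 + ((g 0 + g 3) / 2) ^ 2 :=
    ⟨_, rfl⟩
  obtain ⟨P, hP⟩ : ∃ X, X = u1 * ((e 0 + e 1) / 2) + u2 * ((f 0 + f 1) / 2) +
    u3 * ((g 0 + g 1) / 2) := ⟨_, rfl⟩
  obtain ⟨Q, hQ⟩ : ∃ X, X = u1 * ((e 0 + e 2) / 2) + u2 * ((f 0 + f 2) / 2) +
    u3 * ((g 0 + g 2) / 2) := ⟨_, rfl⟩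
  obtain ⟨R, hR⟩ : ∃ X, X = u1 * ((e 0 + e 3) / 2) + u2 * ((f 0 + f 3) / 2) +
    u3 * ((g 0 + g 3) / 2) := ⟨_, rfl⟩
  have n3' := n3
  rw [e3, f3, g3] at n3'
  have d01 : e 0 * e 1 + f 0 * f 1 + g 0 * g 1 = 2 * X - 1 := by rw [hX]; linarith
  have d02 : e 0 * e 2 + f 0 * f 2 + g 0 * g 2 = 2 * Y - 1 := by rw [hY]; linarith
  have d03 : e 0 * e 3 + f 0 * f 3 + g 0 * g 3 = 2 * Z - 1 := by rw [hZ]; linarith
  have hs : X + Y + Z = 1 := by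
    have : e 0 * e 1 + f 0 * f 1 + g 0 * g 1 + (e 0 * e 2 + f 0 * f 2 + g 0 * g 2) +
      (e 0 * e 3 + f 0 * f 3 + g 0 * g 3) = -1 := by rw [e3, f3, g3]; linarith
    linarith
  have d12 : e 1 * e 2 + f 1 * f 2 + g 1 * g 2 = 2 * Z - 1 := by linarith
  have d13 : e 1 * e 3 + f 1 * f 3 + g 1 * g 3 = 2 * Y - 1 := by rw [e3, f3, g3]; linarith
  have d23 : e 2 * e 3 + f 2 * f 3 + g 2 * g 3 = 2 * X - 1 := by rw [e3, f3, g3]; linarith
  have hG := gram ((e 0 + e 1) / 2) ((f 0 + f 1) / 2) ((g 0 + g 1) / 2) ((e 0 + e 2) / 2)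
    ((f 0 + f 2) / 2) ((g 0 + g 2) / 2) ((e 0 + e 3) / 2) ((f 0 + f 3) / 2) ((g 0 + g 3) / 2)
    u1 u2 u3 hu (by linarith) (by linarith) (by linarith) X Y Z P Q R hX hY hZ hP hQ hR
  have p0 : e 0 * u1 + f 0 * u2 + g 0 * u3 = P + Q + R := by
    rw [hP, hQ, hR, e3, f3, g3]; ring
  have p1 : e 1 * u1 + f 1 * u2 + g 1 * u3 = P - Q - R := by
    rw [hP, hQ, hR, e3, f3, g3]; ring
  have p2 : e 2 * u1 + f 2 * u2 + g 2 * u3 = -P + Q - R := by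
    rw [hP, hQ, hR, e3, f3, g3]; ring
  have p3 : e 3 * u1 + f 3 * u2 + g 3 * u3 = -P - Q + R := by
    rw [hP, hQ, hR, e3, f3, g3]; ring
  have X0 : 0 ≤ X := by rw [hX]; positivity
  have Y0 : 0 ≤ Y := by rw [hY]; positivity
  have Z0 : 0 ≤ Z := by rw [hZ]; positivity
  have l01 := hle 0 1 (by decide)
  have l02 := hle 0 2 (by decide)
  have l03 := hle 0 3 (by decide)
  have l10 := hle 1 0 (by decide)
  have l12 := hle 1 2 (by decide)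
  have l13 := hle 1 3 (by decide)
  have l20 := hle 2 0 (by decide)
  have l21 := hle 2 1 (by decide)
  have l23 := hle 2 3 (by decide)
  have l30 := hle 3 0 (by decide)
  have l31 := hle 3 1 (by decide)
  have l32 := hle 3 2 (by decide)
  clear hX hY hZ hP hQ hR hle hn n3' e3 f3 g3 he hf hg
  have key := scalar_core' X Y Z P Q R X0 Y0 Z0 hs hG (by
    clear hG
    rintro T (rfl | rfl | rfl) <;> refine ⟨?_, ?_, ?_, ?_⟩ <;> linarith)
  clear hG l01 l02 l03 l10 l12 l13 l20 l21 l23 l30 l31 l32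
  rcases key with ⟨hX, hY, hZ, h⟩ | ⟨hP, hQ, hR, h⟩
  · left
    constructor
    · intro i j hij
      fin_cases i <;> fin_cases j <;> simp at hij ⊢ <;> linarith
    · rcases h with h | h | h | h
      · exact ⟨0, by linarith⟩
      · exact ⟨1, by linarith⟩
      · exact ⟨2, by linarith⟩
      · exact ⟨3, by linarith⟩
  · right
    refine ⟨?_, ?_, ?_⟩
    · intro i
      fin_cases i <;> simp <;> linarith
    · intro i j hij
      rcases h with ⟨a, b, c⟩ | ⟨a, b, c⟩ | ⟨a, b, c⟩ <;>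
      fin_cases i <;> fin_cases j <;> simp at hij ⊢ <;>
        first | (left; linarith) | (right; linarith)
    · intro i
      rcases h with ⟨a, b, c⟩ | ⟨a, b, c⟩ | ⟨a, b, c⟩ <;> fin_cases i <;>
        first
          | exact ⟨0, by simp; linarith⟩
          | exact ⟨1, by simp; linarith⟩
          | exact ⟨2, by simp; linarith⟩
          | exact ⟨3, by simp; linarith⟩

end Pool.Agent.MP_d97ab6_al.H26
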