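import Mathlib

namespace Pool.Agent.MP_d97ab6_al.H26

open Complex

/-- The set `a x + b y = c` in `ℂ²`. -/
def line (a b c : ℂ) : Set (ℂ × ℂ) := {z | a * z.1 + b * z.2 = c}

/-- A complex affine line of `ℂ²`. -/
def IsLine (l : Set (ℂ × ℂ)) : Prop := ∃ a b c : ℂ, (a ≠ 0 ∨ b ≠ 0) ∧ l = line a b c

/-- The number of members of the family `L` through the point `p`. -/
noncomputable def mult (L : Set (Set (ℂ × ℂ))) (p : ℂ × ℂ) : ℕ := {l ∈ L | p ∈ l}.ncard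

/-- The primitive cube root of unity `(-1 + √3 i) / 2`. -/
noncomputable def om : ℂ := (-1 + (Real.sqrt 3 : ℝ) * I) / 2

/-- The Eisenstein arrangement: the lines `x = c`, `y = c`, `x - y = c`, `x + ω y = c` with
`c ∈ ℤ[ω]`. -/
def hirzebruch : Set (Set (ℂ × ℂ)) :=
  {l | ∃ m n : ℤ, l = line 1 0 (m + n * om) ∨ l = line 0 1 (m + n * om) ∨
    l = line 1 (-1) (m + n * om) ∨ l = line 1 om (m + n * om)}

/-- The Gaussian arrangement: the lines `x = c`, `y = c` with `c ∈ 1 + (1 + i) ℤ[i]` and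
`x + e y = c` with `e ∈ {1, -1, i, -i}`, `c ∈ 2 ℤ[i]`. -/
def holzapfel : Set (Set (ℂ × ℂ)) :=
  {l | ∃ m n : ℤ, l = line 1 0 (1 + (1 + I) * (m + n * I)) ∨
    l = line 0 1 (1 + (1 + I) * (m + n * I)) ∨ l = line 1 1 (2 * (m + n * I)) ∨
    l = line 1 (-1) (2 * (m + n * I)) ∨ l = line 1 I (2 * (m + n * I)) ∨
    l = line 1 (-I) (2 * (m + n * I))}

end Pool.Agent.MP_d97ab6_al.H26
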