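import Pool.Agent.MP_d97ab6_al.H26.Pull
import Pool.Agent.MP_d97ab6_al.H26.Defs

namespace Pool.Agent.MP_d97ab6_al.H26

open Complex ComplexConjugate

theorem om_re : om.re = -1 / 2 := by simp [om]

theorem om_im : om.im = √3 / 2 := by simp [om]

theorem sq3 : √3 * √3 = 3 := Real.mul_self_sqrt (by norm_num)

theorem om_eq : om ^ 2 + om + 1 = 0 := by
  apply Complex.ext
  · simp only [sq, add_re, mul_re, om_re, om_im, one_re, zero_re]; linarith [sq3]
  · simp only [sq, add_im, mul_im, om_re, om_im, one_im, zero_im]; ring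

theorem normSq_eis (a b : ℝ) : normSq (a + b * om) = a ^ 2 - a * b + b ^ 2 := by
  simp only [normSq_apply, add_re, add_im, mul_re, mul_im, ofReal_re, ofReal_im, om_re, om_im]
  linear_combination (b ^ 2 / 4) * sq3

theorem normSq_om : normSq om = 1 := by
  have := normSq_eis 0 1
  simpa using this

theorem normSq_th : normSq (1 - om) = 3 := by
  have := normSq_eis 1 (-1)
  rw [show ((1 : ℝ) : ℂ) + ((-1 : ℝ) : ℂ) * om = 1 - om by push_cast; ring] at this
  rw [this]; norm_num

theorem near_eis (z : ℂ) : ∃ m n : ℤ, normSq (z - (m + n * om)) ≤ 7 / 16 := by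
  have h3 : (√3 : ℝ) ≠ 0 := by positivity
  obtain ⟨a, b, rfl⟩ : ∃ a b : ℝ, z = a + b * om := by
    refine ⟨z.re + z.im / √3, 2 * z.im / √3, ?_⟩
    apply Complex.ext
    · simp only [add_re, mul_re, ofReal_re, ofReal_im, om_re, om_im]; ring
    · simp only [add_im, mul_im, ofReal_re, ofReal_im, om_re, om_im]; field_simp; ring
  refine ⟨round (a - (b - round b) / 2), round b, ?_⟩
  have e : (a : ℂ) + b * om - (((round (a - (b - round b) / 2) : ℤ) : ℂ) + (round b : ℤ) * om) =
      ((a - round (a - (b - round b) / 2) : ℝ) : ℂ) + ((b - round b : ℝ) : ℂ) * om := by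
    push_cast; ring
  rw [e, normSq_eis]
  have h1 := abs_le.1 (abs_sub_round b)
  have h2 := abs_le.1 (abs_sub_round (a - (b - round b) / 2))
  nlinarith [h1.1, h1.2, h2.1, h2.2]

theorem root_of_norm {z : ℂ} (h1 : normSq z = 1) (h2 : normSq (z - 1) = 3) :
    z = om ∨ z = om ^ 2 := by
  have hre : z.re = -1 / 2 := by
    simp only [normSq_apply, sub_re, sub_im, one_re, one_im] at h1 h2
    linarith
  have : (z - om) * (z - om ^ 2) = 0 := by
    have hz : z ^ 2 + z + 1 = 0 := by
      simp only [normSq_apply] at h1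
      apply Complex.ext
      · simp only [sq, add_re, mul_re, one_re, zero_re]; rw [hre] at h1 ⊢; linarith
      · simp only [sq, add_im, mul_im, one_im, zero_im]; rw [hre]; ring
    linear_combination hz + (om - 1 - z) * om_eq
  rcases mul_eq_zero.1 this with h | h
  · left; linear_combination h
  · right; linear_combination h

section
variable {M : ℂ → ℂ → ℂ → Prop} (S : Sys M 1)
include S

theorem stepT (A B : Fin 4 → ℂ)
    (hp : ∀ i j, i ≠ j → 3 * normSq (dt (A i) (B i) (A j) (B j)) =
      2 * (nn (A i) (B i) * nn (A j) (B j)))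
    {x y x' y' c : ℂ} (hg : ∀ i, M (A i) (B i) (A i * x + B i * y)) (j k : Fin 4) (hjk : j ≠ k)
    (hM : M (A k) (B k) c) (hc : normSq (A k * x + B k * y - c) = nn (A k) (B k))
    (h1 : A j * x' + B j * y' = A j * x + B j * y) (h2 : A k * x' + B k * y' = c) (i : Fin 4) :
    M (A i) (B i) (A i * x' + B i * y') := by
  have hn := fun i => S.ne _ _ _ (hg i)
  have mj : M (A j) (B j) (A j * x' + B j * y') := by rw [h1]; exact hg j
  have mk : M (A k) (B k) (A k * x' + B k * y') := by rw [h2]; exact hM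
  by_cases hij : i = j
  · rwa [hij]
  by_cases hik : i = k
  · rwa [hik]
  have pjk := hp j k hjk
  have pij := hp i j hij
  have npos := mul_pos (hn j) (hn k)
  have djk : dt (A j) (B j) (A k) (B k) ≠ 0 := by
    intro h0
    rw [h0, map_zero] at pjk
    linarith
  have e : dt (A j) (B j) (A k) (B k) * (A i * x' + B i * y' - (A i * x + B i * y)) =
      dt (A i) (B i) (A j) (B j) * (A k * x + B k * y - c) := by
    unfold dt
    linear_combination (A i * B k - B i * A k) * h1 - (A i * B j - B i * A j) * h2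
  have e2 := congrArg normSq e
  rw [map_mul, map_mul, hc] at e2
  have e3 : normSq (A i * x' + B i * y' - (A i * x + B i * y)) = 1 * nn (A i) (B i) := by
    apply mul_left_cancel₀ npos.ne'
    linear_combination (3 / 2) * e2 + (nn (A k) (B k) / 2) * pij -
      (normSq (A i * x' + B i * y' - (A i * x + B i * y)) / 2) * pjk
  rcases S.dich ⟨_, _, _, _, mj, mk, djk⟩ (hg i) e3 with h | h
  · exact h.1
  · rcases h.2 _ _ _ _ mj mk djk with h | h <;> linarith

end

/-- first coordinates of the four forms -/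
noncomputable def fa (r : ℂ) : Fin 4 → ℂ := ![1, -r, -r * om, -r * om ^ 2]
/-- second coordinates of the four forms -/
def fb : Fin 4 → ℂ := ![0, 1, 1, 1]

theorem fpair {r : ℂ} (hr : normSq r = 1 / 2) (i j : Fin 4) (hij : i ≠ j) :
    3 * normSq (dt (fa r i) (fb i) (fa r j) (fb j)) =
      2 * (nn (fa r i) (fb i) * nn (fa r j) (fb j)) := by
  have n0 : nn (fa r 0) (fb 0) = 1 := by simp [nn, fa, fb]
  have n1 : nn (fa r 1) (fb 1) = 3 / 2 := by simp [nn, fa, fb, hr]; norm_num
  have n2 : nn (fa r 2) (fb 2) = 3 / 2 := by simp [nn, fa, fb, hr, normSq_om]; norm_num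
  have n3 : nn (fa r 3) (fb 3) = 3 / 2 := by simp [nn, fa, fb, hr, normSq_om]; norm_num
  have d12 : dt (fa r 1) (fb 1) (fa r 2) (fb 2) = -r * (1 - om) := by simp [dt, fa, fb]; ring
  have d13 : dt (fa r 1) (fb 1) (fa r 3) (fb 3) = r * om ^ 2 * (1 - om) := by
    simp [dt, fa, fb]; linear_combination (r * (om - 1)) * om_eq
  have d23 : dt (fa r 2) (fb 2) (fa r 3) (fb 3) = -r * om * (1 - om) := by simp [dt, fa, fb]; ring
  have sw : ∀ a b u v, normSq (dt a b u v) = normSq (dt u v a b) := by
    intro a b u v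
    rw [← normSq_neg]; congr 1; unfold dt; ring
  have e01 : normSq (dt (fa r 0) (fb 0) (fa r 1) (fb 1)) = 1 := by simp [dt, fa, fb]
  have e02 : normSq (dt (fa r 0) (fb 0) (fa r 2) (fb 2)) = 1 := by simp [dt, fa, fb]
  have e03 : normSq (dt (fa r 0) (fb 0) (fa r 3) (fb 3)) = 1 := by simp [dt, fa, fb]
  have e12 : normSq (dt (fa r 1) (fb 1) (fa r 2) (fb 2)) = 3 / 2 := by
    rw [d12]; simp [hr, normSq_th]; norm_num
  have e13 : normSq (dt (fa r 1) (fb 1) (fa r 3) (fb 3)) = 3 / 2 := by
    rw [d13]; simp [hr, normSq_th, normSq_om]; norm_num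
  have e23 : normSq (dt (fa r 2) (fb 2) (fa r 3) (fb 3)) = 3 / 2 := by
    rw [d23]; simp [hr, normSq_th, normSq_om]; norm_num
  have e10 := (sw _ _ _ _).trans e01
  have e20 := (sw _ _ _ _).trans e02
  have e30 := (sw _ _ _ _).trans e03
  have e21 := (sw _ _ _ _).trans e12
  have e31 := (sw _ _ _ _).trans e13
  have e32 := (sw _ _ _ _).trans e23
  fin_cases i <;> fin_cases j <;> simp only [Fin.zero_eta, Fin.mk_one, Fin.reduceFinMk, ne_eq,
    not_true_eq_false, n0, n1, n2, n3, e01, e02, e03, e12, e13, e23, e10, e20, e30, e21, e31,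
    e32] at hij ⊢ <;> norm_num

/-- all four directions are present -/
def Good (M : ℂ → ℂ → ℂ → Prop) (r x y : ℂ) : Prop :=
  ∀ i, M (fa r i) (fb i) (fa r i * x + fb i * y)

/-- sixth root of unity -/
noncomputable def ze : ℂ := -om ^ 2

theorem normSq_ze (k : ℕ) : normSq (ze ^ k) = 1 := by simp [ze, normSq_om]

theorem ze2 : ze ^ 2 = om := by unfold ze; linear_combination (om ^ 2 - om) * om_eq

theorem ze3 : ze ^ 3 = -1 := by
  rw [pow_succ, ze2, ze]; linear_combination (1 - om) * om_eq

theorem ze6 : ze ^ 6 = 1 := by rw [show 6 = 3 * 2 from rfl, pow_mul, ze3]; norm_num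

/-- good point with all six neighbouring parallel lines -/
def GoodE (M : ℂ → ℂ → ℂ → Prop) (r x y : ℂ) : Prop := Good M r x y ∧ ∀ k : ℕ, M 1 0 (x + ze ^ k)

section
variable {M : ℂ → ℂ → ℂ → Prop} (S : Sys M 1) {r : ℂ} (hr : normSq r = 1 / 2)
include S hr

theorem good_move {x y u : ℂ} (hg : Good M r x y) (hM : M 1 0 (x + u)) (hu : normSq u = 1) :
    Good M r (x + u) (y + r * u) ∧ Good M r (x + u) (y + r * om * u) := by
  constructor
  · exact stepT S (fa r) fb (fpair hr) hg 1 0 (by decide) (c := x + u) (by simpa [fa, fb] using hM)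
      (by simp [fa, fb, nn, hu]) (by simp [fa, fb]; ring) (by simp [fa, fb])
  · exact stepT S (fa r) fb (fpair hr) hg 2 0 (by decide) (c := x + u) (by simpa [fa, fb] using hM)
      (by simp [fa, fb, nn, hu]) (by simp [fa, fb]; ring) (by simp [fa, fb])

theorem good_rot {x y u : ℂ} (hg : Good M r x y) (hM : M 1 0 (x + u)) (hu : normSq u = 1) :
    M 1 0 (x + ze * u) := by
  have h1 := (good_move S hr hg hM hu).1 2
  have h2 := stepT S (fa r) fb (fpair hr) hg 3 2 (by decide) h1 (x' := x + ze * u)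
    (y' := y + r * om ^ 2 * (ze * u)) (by
      rw [show fa r 2 * x + fb 2 * y - (fa r 2 * (x + u) + fb 2 * (y + r * u)) =
        -r * u * (1 - om) by simp [fa, fb]; ring]
      simp [fa, fb, nn, hr, hu, normSq_th, normSq_om]; norm_num)
    (by simp [fa, fb]; ring) (by
      simp [fa, fb, ze]; linear_combination (r * u * (-om ^ 2 + 2 * om - 1)) * om_eq) 0
  simpa [fa, fb] using h2

theorem goodE_of {x y : ℂ} (hg : Good M r x y) (k : ℕ) (hM : M 1 0 (x + ze ^ k)) :
    GoodE M r x y := by
  have h : ∀ j, M 1 0 (x + ze ^ (k + j)) := by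
    intro j
    induction j with
    | zero => exact hM
    | succ j ih =>
      have := good_rot S hr hg ih (normSq_ze _)
      rwa [← pow_succ', add_assoc k j 1] at this
  refine ⟨hg, fun j => ?_⟩
  have := h (5 * k + j)
  rwa [show k + (5 * k + j) = 6 * k + j by ring, pow_add, pow_mul, ze6, one_pow, one_mul] at this

theorem goodE_move {m n : ℂ} (hg : GoodE M r m (r * (m + (1 - om) * n))) (k : ℕ) :
    GoodE M r (m + ze ^ k) (r * (m + ze ^ k + (1 - om) * n)) ∧
      GoodE M r (m + ze ^ k) (r * (m + ze ^ k + (1 - om) * (n - ze ^ k))) := by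
  obtain ⟨h1, h2⟩ := good_move S hr hg.1 (hg.2 k) (normSq_ze k)
  have h0 : M 1 0 (m + ze ^ k + ze ^ (k + 3)) := by
    have := hg.1 0
    rw [pow_add, ze3]
    simpa [fa, fb] using this
  constructor
  · refine goodE_of S hr ?_ _ h0
    rwa [show r * (m + ze ^ k + (1 - om) * n) = r * (m + (1 - om) * n) + r * ze ^ k by ring]
  · refine goodE_of S hr ?_ _ h0
    rwa [show r * (m + ze ^ k + (1 - om) * (n - ze ^ k)) =
      r * (m + (1 - om) * n) + r * om * ze ^ k by ring]

omit S hr in
theorem eis_ind (P : ℂ → Prop) (h0 : P 0) (hs : ∀ z k, P z → P (z + ze ^ k)) (m n : ℤ) :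
    P (m + n * om) := by
  have a1 : ∀ (u : ℂ) (k l : ℕ), ze ^ k = u → ze ^ l = -u → ∀ z, P z → ∀ m : ℤ, P (z + m * u) := by
    intro u k l hk hl z hz m
    induction m using Int.induction_on with
    | zero => simpa using hz
    | succ i ih =>
      have := hs _ k ih
      rw [hk] at this
      convert this using 1
      push_cast; ring
    | pred i ih =>
      have := hs _ l ih
      rw [hl] at this
      convert this using 1
      push_cast; ring
  have b1 := a1 1 0 3 (by simp) ze3 0 h0 m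
  have b2 := a1 om 2 5 ze2 (by rw [show 5 = 3 + 2 from rfl, pow_add, ze3, ze2]; ring) _ b1 n
  simpa using b2

theorem goodE_all (h0 : GoodE M r 0 0) (a b c d : ℤ) :
    GoodE M r (a + b * om) (r * (a + b * om + (1 - om) * (c + d * om))) := by
  have h1 : GoodE M r 0 (r * (0 + (1 - om) * (c + d * om))) := by
    refine eis_ind (fun n => GoodE M r 0 (r * (0 + (1 - om) * n))) (by simpa using h0) ?_ c d
    intro z k hz
    have a1 := (goodE_move S hr hz (k + 3)).2
    have a2 := (goodE_move S hr a1 k).1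
    rw [pow_add, ze3] at a2
    convert a2 using 2 <;> ring
  exact eis_ind (fun m => GoodE M r m (r * (m + (1 - om) * (c + d * om)))) h1
    (fun z k hz => (goodE_move S hr hz k).1) a b

theorem eis_iff (h0 : GoodE M r 0 0) (a b c : ℂ) : M a b c ↔ ∃ k : ℂ, k ≠ 0 ∧ ∃ m n : ℤ,
    (a = k ∧ b = 0 ∧ c = k * (m + n * om)) ∨
    ((a = -k * r ∨ a = -k * r * om ∨ a = -k * r * om ^ 2) ∧ b = k ∧
      c = k * (r * (1 - om) * (m + n * om))) := by
  have hall := goodE_all S hr h0
  constructor
  · intro hM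
    have hn := S.ne _ _ _ hM
    have key : ∀ p q s t : ℤ, normSq (a * (p + q * om) +
        b * (r * (p + q * om + (1 - om) * (s + t * om))) - c) < nn a b → ∃ k : ℂ, k ≠ 0 ∧
        ∃ m n : ℤ, (a = k ∧ b = 0 ∧ c = k * (m + n * om)) ∨
        ((a = -k * r ∨ a = -k * r * om ∨ a = -k * r * om ^ 2) ∧ b = k ∧
          c = k * (r * (1 - om) * (m + n * om))) := by
      intro p q s t hlt
      have hg := (hall p q s t).1
      have hd : ∀ i j, i ≠ j → dt (fa r i) (fb i) (fa r j) (fb j) ≠ 0 := by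
        intro i j hij h0
        have := fpair hr i j hij
        rw [h0, map_zero] at this
        have := mul_pos (S.ne _ _ _ (hg i)) (S.ne _ _ _ (hg j))
        linarith
      have hc : c = a * (p + q * om) + b * (r * (p + q * om + (1 - om) * (s + t * om))) := by
        by_contra hc
        have := S.lower _ _ ⟨_, _, _, _, hg 0, hg 1, hd 0 1 (by decide)⟩ _ _ _ hM hc
        linarith
      obtain ⟨i, hi⟩ := S.four (fa r) fb hg hd (hc ▸ hM)
      obtain ⟨k, hk, ha, hb⟩ := exists_scale (S.ne _ _ _ (hg i)) hn hi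
      refine ⟨k, hk, ?_⟩
      fin_cases i <;> simp [fa, fb] at ha hb
      · exact ⟨p, q, Or.inl ⟨ha, hb, by rw [hc, ha, hb]; ring⟩⟩
      · exact ⟨s, t, Or.inr ⟨Or.inl (by rw [ha]; ring), hb, by rw [hc, ha, hb]; ring⟩⟩
      · exact ⟨p + s, q + t, Or.inr ⟨Or.inr (Or.inl (by rw [ha]; ring)), hb, by
          rw [hc, ha, hb]; push_cast; ring⟩⟩
      · exact ⟨s + p - q, t + p, Or.inr ⟨Or.inr (Or.inr (by rw [ha]; ring)), hb, by
          rw [hc, ha, hb]; push_cast; linear_combination (k * r * q * (1 - om)) * om_eq⟩⟩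
    by_cases hb : b = 0
    · subst hb
      have ha : a ≠ 0 := by simpa using nn_pos_iff.1 hn
      obtain ⟨m, n, h⟩ := near_eis (c / a)
      refine key m n 0 0 ?_
      rw [show a * (m + n * om) + 0 * (r * (m + n * om + (1 - om) * ((0 : ℤ) + (0 : ℤ) * om))) - c
        = -a * (c / a - (m + n * om)) by field_simp; ring, map_mul, normSq_neg]
      have := normSq_pos.2 ha
      simp only [nn, map_zero]
      nlinarith
    · have hr0 : r ≠ 0 := by
        rintro rfl
        simp at hr
      have ht : 1 - om ≠ 0 := by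
        intro h
        have := normSq_th
        rw [h] at this
        simp at this
      obtain ⟨m, n, h⟩ := near_eis (c / (b * r * (1 - om)))
      refine key 0 0 m n ?_
      rw [show a * ((0 : ℤ) + (0 : ℤ) * om) +
        b * (r * ((0 : ℤ) + (0 : ℤ) * om + (1 - om) * (m + n * om))) - c
        = -(b * r * (1 - om)) * (c / (b * r * (1 - om)) - (m + n * om)) by
          field_simp; push_cast; ring, map_mul, normSq_neg, map_mul, map_mul, hr, normSq_th]
      have := normSq_pos.2 hb
      have := normSq_nonneg a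
      simp only [nn]
      nlinarith
  · rintro ⟨k, hk, m, n, ⟨rfl, rfl, rfl⟩ | ⟨h | h | h, rfl, rfl⟩⟩
    · have := S.scale _ _ _ a ((hall m n 0 0).1 0) hk
      simpa [fa, fb] using this
    · have := S.scale _ _ _ b ((hall 0 0 m n).1 1) hk
      rw [h]
      convert this using 1 <;> simp [fa, fb]
      left; ring
    · have := S.scale _ _ _ b ((hall 0 0 m n).1 2) hk
      rw [h]
      convert this using 1 <;> simp [fa, fb]
      · ring
      · left; ring
    · have := S.scale _ _ _ b ((hall 0 0 m n).1 3) hk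
      rw [h]
      convert this using 1 <;> simp [fa, fb]
      · ring
      · left; ring

end

theorem eis_start {M : ℂ → ℂ → ℂ → Prop} (S : Sys M 1) (hs : Sing M 0 0)
    (h0 : M 1 0 (1 * 0 + 0 * 0)) (h1 : M 1 0 1)
    (hp : ∀ a b a' b', M a b (a * 0 + b * 0) → M a' b' (a' * 0 + b' * 0) →
      dt a b a' b' ≠ 0 → 3 * normSq (dt a b a' b') = 2 * (nn a b * nn a' b')) :
    ∃ r, normSq r = 1 / 2 ∧ GoodE M r 0 0 := by
  obtain ⟨A, B, hn, hM, hd, -, hall⟩ := S.frame 0 0 hs
  obtain ⟨i, hi⟩ := hall 1 0 h0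
  have hBi : B i = 0 := by simpa [dt] using hi
  have hB : ∀ j : Fin 3, B (i.succAbove j) ≠ 0 := by
    intro j hj
    exact hd i _ (Fin.succAbove_ne i j).symm (by simp [dt, hBi, hj])
  obtain ⟨r, hr⟩ : ∃ r : Fin 3 → ℂ, ∀ j, r j * B (i.succAbove j) = -A (i.succAbove j) :=
    ⟨fun j => -A (i.succAbove j) / B (i.succAbove j), fun j => div_mul_cancel₀ _ (hB j)⟩
  have hMr : ∀ j, M (-r j) 1 (-r j * 0 + 1 * 0) := by
    intro j
    refine S.par (hM (i.succAbove j)) (nn_pos_iff.2 (Or.inr one_ne_zero)) ?_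
    unfold dt
    linear_combination -hr j
  have hnr : ∀ j, normSq (r j) = 1 / 2 := by
    intro j
    have := hp _ _ _ _ h0 (hMr j) (by simp [dt])
    simp [dt, nn] at this
    linarith
  have hne : ∀ j k, j ≠ k → r j ≠ r k := by
    intro j k hjk h
    refine hd (i.succAbove j) (i.succAbove k) (fun h' => hjk (Fin.succAbove_right_injective h')) ?_
    unfold dt
    linear_combination B (i.succAbove k) * hr j - B (i.succAbove j) * hr k -
      B (i.succAbove k) * B (i.succAbove j) * h
  have hr0 : r 0 ≠ 0 := by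
    intro h
    have := hnr 0
    rw [h] at this
    simp at this
  have hrt : ∀ j, j ≠ 0 → r j = r 0 * om ∨ r j = r 0 * om ^ 2 := by
    intro j hj
    have e : dt (-r 0) 1 (-r j) 1 = r j - r 0 := by unfold dt; ring
    have a := hp _ _ _ _ (hMr 0) (hMr j) (by rw [e]; exact sub_ne_zero.2 (hne j 0 hj))
    rw [e] at a
    simp only [nn, normSq_neg, hnr, map_one] at a
    have := root_of_norm (z := r j / r 0) (by rw [map_div₀, hnr, hnr]; norm_num) (by
      rw [show r j / r 0 - 1 = (r j - r 0) / r 0 by field_simp, map_div₀, hnr]; linarith)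
    rcases this with h | h
    · left; rw [← h]; field_simp
    · right; rw [← h]; field_simp
  have hg : Good M (r 0) 0 0 := by
    have a1 := hMr 1
    have a2 := hMr 2
    have a3 := hne 1 2 (by decide)
    have key : M (-(r 0 * om)) 1 0 ∧ M (-(r 0 * om ^ 2)) 1 0 := by
      rcases hrt 1 (by decide) with h | h <;> rcases hrt 2 (by decide) with h' | h'
      · exact absurd (h.trans h'.symm) a3
      · rw [h] at a1; rw [h'] at a2; exact ⟨by simpa using a1, by simpa using a2⟩
      · rw [h] at a1; rw [h'] at a2; exact ⟨by simpa using a2, by simpa using a1⟩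
      · exact absurd (h.trans h'.symm) a3
    intro k
    fin_cases k
    · simpa [fa, fb] using h0
    · simpa [fa, fb] using hMr 0
    · simpa [fa, fb] using key.1
    · simpa [fa, fb] using key.2
  exact ⟨r 0, hnr 0, goodE_of S (hnr 0) hg 0 (by simpa using h1)⟩

/-- The Eisenstein family as a predicate on equations. -/
def StdE (a b c : ℂ) : Prop := ∃ k : ℂ, k ≠ 0 ∧ ∃ m n : ℤ, c = k * (m + n * om) ∧
  ((a = k ∧ b = 0) ∨ (a = 0 ∧ b = k) ∨ (a = k ∧ b = -k) ∨ (a = k ∧ b = k * om))

theorem eis_std {M : ℂ → ℂ → ℂ → Prop} (S : Sys M 1) {r : ℂ} (hr : normSq r = 1 / 2)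
    (h0 : GoodE M r 0 0) : ∃ p q r w s t : ℂ, p * w - q * r ≠ 0 ∧
      ∀ a b c, Pull M p q r w s t a b c ↔ StdE a b c := by
  have hr0 : r ≠ 0 := by
    rintro rfl
    simp at hr
  have ht : 1 - om ≠ 0 := by
    intro h
    have := normSq_th
    rw [h] at this
    simp at this
  have hom : om ≠ 0 := by
    intro h
    have := normSq_om
    rw [h] at this
    simp at this
  obtain ⟨d, hd⟩ : ∃ d, d * (r * (1 - om)) = 1 := ⟨_, inv_mul_cancel₀ (mul_ne_zero hr0 ht)⟩
  have hd0 : d ≠ 0 := left_ne_zero_of_mul_eq_one hd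
  refine ⟨1, 0, d * r, -d, 0, 0, by simpa using hd0, fun a b c => ?_⟩
  unfold Pull StdE
  rw [eis_iff S hr h0]
  constructor
  · rintro ⟨k, hk, m, n, ⟨h1, h2, h3⟩ | ⟨h1 | h1 | h1, h2, h3⟩⟩
    · have hb : b = 0 := by simpa [hd0] using h2
      exact ⟨k, hk, m, n, by linear_combination h3, Or.inl ⟨by rw [hb] at h1; simpa using h1, hb⟩⟩
    · have hb : b = -k * (r * (1 - om)) := by linear_combination -(r * (1 - om)) * h2 - b * hd
      refine ⟨-k * (r * (1 - om)), by simp [hk, hr0, ht], -m, -n, by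
        push_cast; linear_combination h3, Or.inr (Or.inl ⟨?_, hb⟩)⟩
      linear_combination h1 + r * h2
    · have hb : b = -k * (r * (1 - om)) := by linear_combination -(r * (1 - om)) * h2 - b * hd
      refine ⟨k * (r * (1 - om)), by simp [hk, hr0, ht], m, n, by
        linear_combination h3, Or.inr (Or.inr (Or.inl ⟨?_, by rw [hb]; ring⟩))⟩
      linear_combination h1 + r * h2
    · have hb : b = -k * (r * (1 - om)) := by linear_combination -(r * (1 - om)) * h2 - b * hd
      refine ⟨-k * (r * (1 - om)) * om ^ 2, by simp [hk, hr0, ht, hom], n, n - m, by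
        push_cast
        linear_combination h3 + (k * r * (1 - om) * (n * om + m - m * om)) * om_eq,
        Or.inr (Or.inr (Or.inr ⟨?_, ?_⟩))⟩
      · linear_combination h1 + r * h2 + (k * r * (1 - om)) * om_eq
      · linear_combination hb + (k * r * (1 - om) * (om - 1)) * om_eq
  · rintro ⟨k, hk, m, n, h3, ⟨h1, h2⟩ | ⟨h1, h2⟩ | ⟨h1, h2⟩ | ⟨h1, h2⟩⟩
    · exact ⟨k, hk, m, n, Or.inl ⟨by simp [h1, h2], by simp [h2], by simp [h3]⟩⟩
    · refine ⟨-(k * d), by simp [hk, hd0], -m, -n, Or.inr ⟨Or.inl (by rw [h1, h2]; ring),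
        by rw [h1, h2]; ring, ?_⟩⟩
      push_cast
      linear_combination h3 - (k * (m + n * om)) * hd
    · refine ⟨k * d, by simp [hk, hd0], m, n, Or.inr ⟨Or.inr (Or.inl ?_),
        by rw [h1, h2]; ring, ?_⟩⟩
      · rw [h1, h2]; linear_combination -k * hd
      · linear_combination h3 - (k * (m + n * om)) * hd
    · refine ⟨-(k * om * d), by simp [hk, hd0, hom], m - n, m, Or.inr ⟨Or.inr (Or.inr ?_),
        by rw [h1, h2]; ring, ?_⟩⟩
      · rw [h1, h2]; linear_combination -k * hd + (k * d * r * (1 - om)) * om_eq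
      · push_cast
        linear_combination h3 + (k * om * (m - n + m * om)) * hd + (k * m) * om_eq

end Pool.Agent.MP_d97ab6_al.H26
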