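import Pool.Agent.MP_d97ab6_al.H26.Sys

namespace Pool.Agent.MP_d97ab6_al.H26

open Complex Module Submodule

set_option backward.isDefEq.respectTransparency.types false in
theorem relIndex_det {E : Type*} [NormedAddCommGroup E] [NormedSpace ℝ E] [FiniteDimensional ℝ E]
    (L₁ L₂ : Submodule ℤ E) [DiscreteTopology L₁] [IsZLattice ℝ L₁] [DiscreteTopology L₂]
    [IsZLattice ℝ L₂] (h : L₁ ≤ L₂) {ι : Type*} [Fintype ι] [DecidableEq ι] (b₁ : Basis ι ℤ L₁)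
    (b₂ : Basis ι ℤ L₂) : (L₁.toAddSubgroup.relIndex L₂.toAddSubgroup : ℝ) =
      |(b₂.ofZLatticeBasis ℝ L₂).det (b₁.ofZLatticeBasis ℝ L₁)| := by
  rw [AddSubgroup.relIndex_eq_natAbs_det L₁.toAddSubgroup L₂.toAddSubgroup h b₁ b₂,
    Nat.cast_natAbs, Int.cast_abs, Basis.det_apply, Basis.det_apply, Int.cast_det]
  congr; ext i j
  rw [Matrix.map_apply, Basis.toMatrix_apply, Basis.toMatrix_apply, Basis.ofZLatticeBasis_apply]
  exact (b₂.ofZLatticeBasis_repr_apply ℝ L₂ ⟨b₁ j, h (coe_mem _)⟩ i).symm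

theorem relIndex_det' {E : Type*} [NormedAddCommGroup E] [NormedSpace ℝ E] [FiniteDimensional ℝ E]
    (L₁ : Submodule ℤ E) [DiscreteTopology L₁] [IsZLattice ℝ L₁] {ι : Type*} [Fintype ι]
    [DecidableEq ι] (b₁ : Basis ι ℤ L₁) (B : Basis ι ℝ E) (h : L₁ ≤ span ℤ (Set.range B)) :
    (L₁.toAddSubgroup.relIndex (span ℤ (Set.range B)).toAddSubgroup : ℝ) =
      |B.det (b₁.ofZLatticeBasis ℝ L₁)| := by
  rw [relIndex_det L₁ _ h b₁ (B.restrictScalars ℤ)]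
  congr 3
  ext i
  rw [Basis.ofZLatticeBasis_apply, Basis.restrictScalars_apply]

/-- The pair of forms as a complex linear map. -/
def pairMap (a b a' b' : ℂ) : (ℂ × ℂ) →ₗ[ℂ] (ℂ × ℂ) where
  toFun z := (a * z.1 + b * z.2, a' * z.1 + b' * z.2)
  map_add' z w := by ext <;> simp <;> ring
  map_smul' k z := by ext <;> simp <;> ring

theorem det_pairMap (a b a' b' : ℂ) : LinearMap.det (pairMap a b a' b') = dt a b a' b' := by
  rw [← LinearMap.det_toMatrix (Basis.finTwoProd ℂ), Matrix.det_fin_two]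
  simp [LinearMap.toMatrix_apply, pairMap, dt]

theorem det_prod (β β' γ γ' : Basis (Fin 2) ℝ ℂ) :
    (β.prod β').det (γ.prod γ') = β.det γ * β'.det γ' := by
  have : (β.prod β').toMatrix (γ.prod γ') =
      Matrix.fromBlocks (β.toMatrix γ) 0 0 (β'.toMatrix γ') := by
    ext (i | i) (j | j) <;> simp [Basis.toMatrix_apply]
  rw [Basis.det_apply, this, Matrix.det_fromBlocks_zero₂₁, Basis.det_apply, Basis.det_apply]

theorem index_formula (Λ : Submodule ℤ (ℂ × ℂ)) [DiscreteTopology Λ] [IsZLattice ℝ Λ] :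
    ∃ C : ℝ, 0 ≤ C ∧ ∀ (a b a' b' : ℂ) (β β' : Basis (Fin 2) ℝ ℂ), dt a b a' b' ≠ 0 →
      (∀ v ∈ Λ, a * v.1 + b * v.2 ∈ span ℤ (Set.range β)) →
      (∀ v ∈ Λ, a' * v.1 + b' * v.2 ∈ span ℤ (Set.range β')) →
      ∃ H : AddSubgroup (ℂ × ℂ), (∀ z, z ∈ H ↔ a * z.1 + b * z.2 ∈ span ℤ (Set.range β) ∧
        a' * z.1 + b' * z.2 ∈ span ℤ (Set.range β')) ∧
        (Λ.toAddSubgroup.relIndex H : ℝ) =
          C * (|β.det basisOneI| * |β'.det basisOneI| * normSq (dt a b a' b')) := by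
  have hr : finrank ℤ Λ = Fintype.card (Fin 2 ⊕ Fin 2) := by
    rw [ZLattice.rank ℝ Λ]; simp
  let b₁ : Basis (Fin 2 ⊕ Fin 2) ℤ Λ :=
    (finBasisOfFinrankEq ℤ Λ hr).reindex (Fintype.equivFin _).symm
  refine ⟨|(basisOneI.prod basisOneI).det (b₁.ofZLatticeBasis ℝ Λ)|, abs_nonneg _, ?_⟩
  intro a b a' b' β β' hd h1 h2
  have hdet : LinearMap.det ((pairMap a b a' b').restrictScalars ℝ) = normSq (dt a b a' b') := by
    rw [LinearMap.det_restrictScalars, det_pairMap, Algebra.norm_complex_apply]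
  let Φ : (ℂ × ℂ) ≃ₗ[ℝ] (ℂ × ℂ) := LinearMap.equivOfDetNeZero
    ((pairMap a b a' b').restrictScalars ℝ) (by rw [hdet]; exact (normSq_pos.2 hd).ne')
  have hΦ : ∀ z, Φ z = (a * z.1 + b * z.2, a' * z.1 + b' * z.2) := fun z => rfl
  have hmem : ∀ z, z ∈ span ℤ (Set.range ((β.prod β').map Φ.symm)) ↔
      a * z.1 + b * z.2 ∈ span ℤ (Set.range β) ∧ a' * z.1 + b' * z.2 ∈ span ℤ (Set.range β') := by
    intro z
    simp only [Basis.mem_span_iff_repr_mem, Sum.forall, Basis.map_repr, LinearEquiv.symm_symm,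
      LinearEquiv.trans_apply, Basis.prod_repr_inl, Basis.prod_repr_inr, hΦ]
  refine ⟨(span ℤ (Set.range ((β.prod β').map Φ.symm))).toAddSubgroup, hmem, ?_⟩
  rw [relIndex_det' Λ b₁ _ (fun v hv => (hmem v).2 ⟨h1 v hv, h2 v hv⟩), Basis.det_map,
    LinearEquiv.symm_symm]
  have := (β.prod β').det_comp ((pairMap a b a' b').restrictScalars ℝ) (b₁.ofZLatticeBasis ℝ Λ)
  rw [hdet, ← Basis.det_mul_det _ (basisOneI.prod basisOneI), det_prod] at this
  have e : (Φ : (ℂ × ℂ) → (ℂ × ℂ)) = (pairMap a b a' b').restrictScalars ℝ := rfl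
  rw [e, this, abs_mul, abs_mul, abs_mul, abs_of_nonneg (normSq_nonneg _)]
  ring

/-- The image of a lattice under a form is a lattice as soon as it is locally finite. -/
theorem exists_basis (Λ : Submodule ℤ (ℂ × ℂ)) [DiscreteTopology Λ] [IsZLattice ℝ Λ] (a b : ℂ)
    (hab : a ≠ 0 ∨ b ≠ 0)
    (hfin : {w : ℂ | (∃ v ∈ Λ, w = a * v.1 + b * v.2) ∧ ‖w‖ ≤ 1}.Finite) :
    ∃ β : Basis (Fin 2) ℝ ℂ, ∀ w, w ∈ span ℤ (Set.range β) ↔ ∃ v ∈ Λ, w = a * v.1 + b * v.2 := by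
  let α : (ℂ × ℂ) →ₗ[ℝ] ℂ :=
    ((LinearMap.fst ℂ ℂ ℂ).comp (pairMap a b 0 0)).restrictScalars ℝ
  have hα : ∀ z, α z = a * z.1 + b * z.2 := fun z => rfl
  let L : Submodule ℤ ℂ := Λ.map (α.restrictScalars ℤ)
  have hL : ∀ w, w ∈ L ↔ ∃ v ∈ Λ, w = a * v.1 + b * v.2 := by
    intro w
    simp only [L, mem_map, LinearMap.restrictScalars_apply, hα, eq_comm]
  have hdisc : DiscreteTopology L := by
    refine discreteTopology_iff_isOpen_singleton_zero.mpr ⟨Metric.ball 0 1 ∩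
      ({w : ℂ | (∃ v ∈ Λ, w = a * v.1 + b * v.2) ∧ ‖w‖ ≤ 1} \ {0})ᶜ,
      Metric.isOpen_ball.inter (hfin.subset Set.sdiff_subset).isClosed.isOpen_compl, ?_⟩
    ext ⟨w, hw⟩
    simp only [Set.mem_preimage, Set.mem_inter_iff, mem_ball_zero_iff, Set.mem_compl_iff,
      Set.mem_sdiff, Set.mem_ofPred_eq, Set.mem_singleton_iff, Subtype.ext_iff, ZeroMemClass.coe_zero]
    constructor
    · rintro ⟨h1, h2⟩
      by_contra h0
      exact h2 ⟨⟨(hL w).1 hw, h1.le⟩, h0⟩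
    · rintro rfl
      simp
  have hsurj : Function.Surjective α := by
    intro w
    rcases hab with h | h
    · exact ⟨(w / a, 0), by rw [hα]; field_simp; ring⟩
    · exact ⟨(0, w / b), by rw [hα]; field_simp; ring⟩
  have hlat : IsZLattice ℝ L := ⟨by
    have h1 : (L : Set ℂ) = α '' Λ := by
      ext w; simp [L]
    rw [h1, span_image, IsZLattice.span_top, Submodule.map_top, LinearMap.range_eq_top.2 hsurj]⟩
  have hr : finrank ℤ L = 2 := by rw [ZLattice.rank ℝ L]; simp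
  refine ⟨(finBasisOfFinrankEq ℤ L hr).ofZLatticeBasis ℝ L, fun w => ?_⟩
  rw [Basis.ofZLatticeBasis_span, hL]

/-- Counting representatives in a coset. -/
theorem card_coset {G : Type*} [AddCommGroup G] (Λ H : AddSubgroup G) (z : G)
    (T : Finset G) (h1 : ∀ q ∈ T, q - z ∈ H) (h2 : ∀ p, p - z ∈ H → ∃ q ∈ T, p - q ∈ Λ)
    (h3 : ∀ q ∈ T, ∀ q' ∈ T, q - q' ∈ Λ → q = q') : T.card = Λ.relIndex H := by
  rw [AddSubgroup.relIndex, AddSubgroup.index, ← Nat.card_eq_finsetCard]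
  refine Nat.card_congr (Equiv.ofBijective
    (fun q => QuotientAddGroup.mk (⟨q.1 - z, h1 q.1 q.2⟩ : H)) ⟨?_, ?_⟩)
  · intro q q' h
    rw [QuotientAddGroup.eq, AddSubgroup.mem_addSubgroupOf] at h
    refine Subtype.ext (h3 _ q'.2 _ q.2 ?_).symm
    convert h using 1
    simp
  · intro x
    obtain ⟨⟨w, hw⟩, rfl⟩ := QuotientAddGroup.mk_surjective x
    obtain ⟨q, hq, h⟩ := h2 (w + z) (by simpa using hw)
    refine ⟨⟨q, hq⟩, ?_⟩
    rw [QuotientAddGroup.eq, AddSubgroup.mem_addSubgroupOf]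
    convert h using 1
    simp
    abel

end Pool.Agent.MP_d97ab6_al.H26
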