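import Pool.Agent.MP_d97ab6_al.H26.Arr

namespace Pool.Agent.MP_d97ab6_al.H26

open Complex Module Submodule Finset

variable {Λ : Submodule ℤ (ℂ × ℂ)} {L : Set (Set (ℂ × ℂ))} {F : Finset (ℂ × ℂ)}

theorem m0_scale {a b c k : ℂ} (h : M0 L a b c) (hk : k ≠ 0) : M0 L (k * a) (k * b) (k * c) :=
  ⟨h.1.imp (mul_ne_zero hk) (mul_ne_zero hk), by rw [line_scale _ _ _ _ hk]; exact h.2⟩

/-- The least weighted distance from a singular point to a line missing it is attained. -/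
theorem Arr.exists_min (A : Arr Λ L F) [DiscreteTopology Λ] [IsZLattice ℝ Λ] (hne : F.Nonempty)
    (N : ℂ × ℂ → ℝ) (hN : ∀ d, Can d → 0 < N d) : ∃ (q d : ℂ × ℂ) (c : ℂ), 2 ≤ mult L q ∧ Can d ∧
      line d.1 d.2 c ∈ L ∧ c ≠ ev d q ∧ ∀ p d' c', 2 ≤ mult L p → Can d' → line d'.1 d'.2 c' ∈ L →
        c' ≠ ev d' p → normSq (ev d q - c) / N d ≤ normSq (ev d' p - c') / N d' := by
  obtain ⟨q, hq⟩ := id hne
  obtain ⟨d, -, hd, -, -, h4, -⟩ := (A.two_le_iff q).1 (A.hF q hq)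
  obtain ⟨β, hβ⟩ := A.basis hd h4
  obtain ⟨v, hv, e⟩ := (hβ (β 0)).1 (subset_span ⟨0, rfl⟩)
  have h0 : ev d q + ev d v ≠ ev d q := by
    rw [← e]
    simpa using β.ne_zero 0
  let δ : (ℂ × ℂ) × (ℂ × ℂ) × ℂ → ℝ := fun t => normSq (ev t.2.1 t.1 - t.2.2) / N t.2.1
  let S : Set ((ℂ × ℂ) × (ℂ × ℂ) × ℂ) := {t | t.1 ∈ F ∧ Can t.2.1 ∧ line t.2.1.1 t.2.1.2 t.2.2 ∈ L ∧
    t.2.2 ≠ ev t.2.1 t.1 ∧ δ t ≤ δ (q, d, ev d q + ev d v)}
  have hS : S.Finite := by
    refine (F.finite_toSet.biUnion fun p _ => (A.fin_dirs hne).biUnion fun d' hd' =>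
      (A.fin_c hd'.1 (‖ev d' p‖ + √(δ (q, d, ev d q + ev d v) * N d'))).image
        fun c => (p, d', c)).subset ?_
    rintro ⟨p, d', c⟩ ⟨h1, h2, h3, -, h5⟩
    refine Set.mem_biUnion h1 (Set.mem_biUnion (⟨h2, c, h3⟩ : d' ∈ {d | Can d ∧ ∃ c, line d.1 d.2 c ∈ L}) ⟨c, ⟨h3, ?_⟩, rfl⟩)
    have h6 : normSq (ev d' p - c) ≤ δ (q, d, ev d q + ev d v) * N d' :=
      (div_le_iff₀ (hN d' h2)).1 h5
    rw [normSq_eq_norm_sq] at h6
    have h7 := Real.le_sqrt_of_sq_le h6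
    have h8 := norm_sub_le (ev d' p) (ev d' p - c)
    rw [sub_sub_cancel] at h8
    linarith
  obtain ⟨⟨q0, d0, c0⟩, ⟨h1, h2, h3, h5, h6⟩, hmin⟩ := Set.exists_min_image S δ hS
    ⟨(q, d, ev d q + ev d v), hq, hd, A.shift h4 hv, h0, le_rfl⟩
  refine ⟨q0, d0, c0, A.hF _ h1, h2, h3, h5, fun p d' c' hp hd' hl hc => ?_⟩
  obtain ⟨q', ⟨hq', hv'⟩, -⟩ := A.hrep p hp
  have e1 : ev d' q' - (c' + ev d' (-(p - q'))) = ev d' p - c' := by simp [ev]; ring
  by_cases hle : δ (q', d', c' + ev d' (-(p - q'))) ≤ δ (q, d, ev d q + ev d v)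
  · have := hmin (q', d', c' + ev d' (-(p - q'))) ⟨hq', hd', A.shift hl (neg_mem hv'), by
      intro h
      apply hc
      have h' : c' + ev d' (-(p - q')) = ev d' q' := h
      rw [h', sub_self] at e1
      linear_combination e1, hle⟩
    simp only [δ, e1] at this
    exact this
  · have := h6.trans (not_le.1 hle).le
    simp only [δ, e1] at this
    exact this

theorem Arr.eqv (A : Arr Λ L F) [DiscreteTopology Λ] [IsZLattice ℝ Λ] (hne : F.Nonempty)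
    (hrate : 4 * F.card ≤ ∑ p ∈ F, mult L p) : Eqv (M0 L) StdE ∨ Eqv (M0 L) StdG := by
  obtain ⟨s, k, hs, hT⟩ := A.tight hne hrate
  have hs' : (s : ℂ) ≠ 0 := by exact_mod_cast hs.ne'
  obtain ⟨r, hr⟩ : ∃ r : ℂ, r * s = 1 := ⟨_, inv_mul_cancel₀ hs'⟩
  have hr0 : r ≠ 0 := left_ne_zero_of_mul_eq_one hr
  have hD : r * 1 - r * k * 0 ≠ 0 := by simpa using hr0
  have hN : ∀ d, Can d → 0 < nn (s * d.1) (d.2 - k * d.1) := by
    intro d hd
    rw [nn_pos_iff]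
    by_cases h : d.1 = 0
    · right
      simpa [h] using hd.ne
    · exact Or.inl (mul_ne_zero hs' h)
  obtain ⟨q, d, c, hq, hd, hl, hc, hmin⟩ := A.exists_min hne _ hN
  have hM : ∀ d c, Can d → line d.1 d.2 c ∈ L →
      Pull (M0 L) r (r * k) 0 1 0 0 (s * d.1) (d.2 - k * d.1) c := by
    intro d c hd hl
    unfold Pull
    rw [show s * d.1 * r + (d.2 - k * d.1) * 0 = d.1 by linear_combination d.1 * hr,
      show s * d.1 * (r * k) + (d.2 - k * d.1) * 1 = d.2 by linear_combination k * d.1 * hr,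
      show c - s * d.1 * 0 - (d.2 - k * d.1) * 0 = c by ring]
    exact ⟨hd.ne, hl⟩
  have hM' : ∀ u v c, Pull (M0 L) r (r * k) 0 1 0 0 u v c → ∃ (d : ℂ × ℂ) (t c' : ℂ), Can d ∧
      t ≠ 0 ∧ u = t * (s * d.1) ∧ v = t * (d.2 - k * d.1) ∧ c = t * c' ∧ line d.1 d.2 c' ∈ L := by
    intro u v c h
    obtain ⟨d, t, hd, ht, e1, e2⟩ := exists_can h.1
    have h2 := h.2
    rw [e1, e2, show c - u * 0 - v * 0 = t * (c / t) by field_simp; ring,
      line_scale _ _ _ _ ht] at h2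
    refine ⟨d, t, c / t, hd, ht, ?_, ?_, by field_simp, h2⟩
    · linear_combination s * e1 - u * hr
    · linear_combination e2 - k * e1
  have hev : ∀ (d : ℂ × ℂ) (x y : ℂ), s * d.1 * (r * x + r * k * y + 0) +
      (d.2 - k * d.1) * (0 * x + 1 * y + 0) = ev d (x, y) := by
    intro d x y
    unfold ev
    linear_combination (d.1 * x + d.1 * k * y) * hr
  have hsc : ∀ a b c t, Pull (M0 L) r (r * k) 0 1 0 0 a b c → t ≠ 0 →
      Pull (M0 L) r (r * k) 0 1 0 0 (t * a) (t * b) (t * c) := by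
    intro a b c t h ht
    have := m0_scale h ht
    unfold Pull
    convert this using 1 <;> ring
  have S : Sys (Pull (M0 L) r (r * k) 0 1 0 0)
      (normSq (ev d q - c) / nn (s * d.1) (d.2 - k * d.1)) := by
    refine ⟨div_pos (normSq_pos.2 (sub_ne_zero.2 hc.symm)) (hN d hd), hsc, ?_, ?_, ?_⟩
    · intro u v c h
      obtain ⟨d, t, c', hd, ht, rfl, rfl, -, -⟩ := hM' u v c h
      rw [nn_scale]
      exact mul_pos (normSq_pos.2 ht) (hN d hd)
    · intro X Y hXY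
      obtain ⟨x, y, rfl, rfl⟩ := exists_pt r (r * k) 0 1 0 0 hD X Y
      obtain ⟨T, h1, h2, h3⟩ := hT (x, y)
        ((A.sing_iff (x, y)).1 ((sing_pull _ _ _ _ _ _ _ _ _ hD).1 hXY))
      let e : Fin 4 ≃ T := (equivFinOfCardEq h2).symm
      have hcan : ∀ i, Can (e i).1 := fun i => ((h1 _).1 (e i).2).1
      have ht : ∀ i, ∃ t : ℂ, normSq t * nn (s * (e i).1.1) ((e i).1.2 - k * (e i).1.1) = 1 := by
        intro i
        have := hN _ (hcan i)
        refine ⟨(√(1 / nn (s * (e i).1.1) ((e i).1.2 - k * (e i).1.1)) : ℝ), ?_⟩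
        rw [normSq_ofReal, Real.mul_self_sqrt (by positivity), one_div_mul_cancel this.ne']
      choose t ht using ht
      have ht0 : ∀ i, t i ≠ 0 := by
        intro i h
        have := ht i
        rw [h] at this
        simp at this
      refine ⟨fun i => t i * (s * (e i).1.1), fun i => t i * ((e i).1.2 - k * (e i).1.1),
        fun i => by rw [nn_scale, ht], fun i => ?_, fun i j hij => ?_, fun u v => ?_,
        fun u v huv => ?_⟩
      · have := hsc _ _ _ (t i) (hM _ _ (hcan i) ((h1 _).1 (e i).2).2) (ht0 i)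
        rw [← hev] at this
        convert this using 1
        ring
      · rw [dt_scale]
        refine mul_ne_zero (mul_ne_zero (ht0 i) (ht0 j)) fun h => hij ?_
        refine e.injective (Subtype.ext ((hcan i).eq (hcan j) ?_))
        apply mul_left_cancel₀ hs'
        unfold dt at h ⊢
        linear_combination h
      · rw [← h3 u v, ← sum_coe_sort T, ← e.sum_comp]
        refine sum_congr rfl fun i _ => ?_
        have a1 := dt_scale (t i) (s * (e i).1.1) ((e i).1.2 - k * (e i).1.1) 1 u v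
        rw [one_mul, one_mul, mul_one] at a1
        rw [a1, map_mul, eq_div_iff (hN _ (hcan i)).ne']
        linear_combination normSq (dt (s * (e i).1.1) ((e i).1.2 - k * (e i).1.1) u v) * ht i
      · obtain ⟨d, t', c', hd, ht', rfl, rfl, hc', hl⟩ := hM' _ _ _ huv
        have : c' = ev d (x, y) := by
          apply mul_left_cancel₀ ht'
          rw [← hc', ← hev]
          ring
        obtain ⟨i, hi⟩ := e.surjective ⟨d, (h1 d).2 ⟨hd, this ▸ hl⟩⟩
        refine ⟨i, ?_⟩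
        simp only [hi]
        unfold dt
        ring
    · intro X Y hXY u v c' h hc'
      obtain ⟨x, y, rfl, rfl⟩ := exists_pt r (r * k) 0 1 0 0 hD X Y
      obtain ⟨d', t, c'', hd', ht, rfl, rfl, rfl, hl'⟩ := hM' _ _ _ h
      have e : t * (s * d'.1) * (r * x + r * k * y + 0) + t * (d'.2 - k * d'.1) *
          (0 * x + 1 * y + 0) = t * ev d' (x, y) := by rw [← hev]; ring
      rw [e] at hc' ⊢
      have := hmin (x, y) d' c'' ((A.sing_iff (x, y)).1 ((sing_pull _ _ _ _ _ _ _ _ _ hD).1 hXY))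
        hd' hl' (fun h => hc' (by rw [h]))
      rw [le_div_iff₀ (hN d' hd')] at this
      rw [nn_scale, ← mul_sub, map_mul]
      have := mul_le_mul_of_nonneg_left this (normSq_nonneg t)
      linarith
  have := S.classify ((sing_pull _ r (r * k) 0 1 0 0 q.1 q.2 hD).2 ((A.sing_iff q).2 hq))
    (hM d c hd hl) (by rw [hev, div_mul_cancel₀ _ (hN d hd).ne'])
  exact this.imp (Eqv.of_pull hD) (Eqv.of_pull hD)

theorem stdE_iff (a b c : ℂ) : StdE a b c ↔ M0 hirzebruch a b c := by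
  constructor
  · rintro ⟨k, hk, m, n, rfl, ⟨rfl, rfl⟩ | ⟨rfl, rfl⟩ | ⟨rfl, rfl⟩ | ⟨rfl, rfl⟩⟩
    · exact ⟨Or.inl hk, m, n, Or.inl (by simpa using line_scale 1 0 _ a hk)⟩
    · exact ⟨Or.inr hk, m, n, Or.inr (Or.inl (by simpa using line_scale 0 1 _ b hk))⟩
    · exact ⟨Or.inl hk, m, n, Or.inr (Or.inr (Or.inl (by simpa using line_scale 1 (-1) _ a hk)))⟩
    · exact ⟨Or.inl hk, m, n, Or.inr (Or.inr (Or.inr (by simpa using line_scale 1 om _ a hk)))⟩
  · rintro ⟨h, m, n, e | e | e | e⟩ <;> obtain ⟨k, hk, rfl, rfl, rfl⟩ := line_eq h (by simp) e <;>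
      exact ⟨k, hk, m, n, rfl, by simp⟩

theorem stdG_iff (a b c : ℂ) : StdG a b c ↔ M0 holzapfel a b c := by
  constructor
  · rintro ⟨k, hk, m, n, ⟨⟨rfl, rfl⟩ | ⟨rfl, rfl⟩, rfl⟩ | ⟨e, rfl | rfl | rfl | rfl, rfl, rfl, rfl⟩⟩
    · exact ⟨Or.inl hk, m, n, Or.inl (by simpa using line_scale 1 0 _ a hk)⟩
    · exact ⟨Or.inr hk, m, n, Or.inr (Or.inl (by simpa using line_scale 0 1 _ b hk))⟩
    · exact ⟨Or.inl hk, m, n, Or.inr (Or.inr (Or.inl (by simpa using line_scale 1 1 _ a hk)))⟩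
    · exact ⟨Or.inl hk, m, n, Or.inr (Or.inr (Or.inr (Or.inl
        (by simpa using line_scale 1 (-1) _ a hk))))⟩
    · exact ⟨Or.inl hk, m, n, Or.inr (Or.inr (Or.inr (Or.inr (Or.inl
        (by simpa using line_scale 1 I _ a hk)))))⟩
    · exact ⟨Or.inl hk, m, n, Or.inr (Or.inr (Or.inr (Or.inr (Or.inr
        (by simpa using line_scale 1 (-I) _ a hk)))))⟩
  · rintro ⟨h, m, n, e | e | e | e | e | e⟩ <;>
      obtain ⟨k, hk, rfl, rfl, rfl⟩ := line_eq h (by simp) e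
    · exact ⟨k, hk, m, n, Or.inl ⟨Or.inl ⟨by simp, by simp⟩, rfl⟩⟩
    · exact ⟨k, hk, m, n, Or.inl ⟨Or.inr ⟨by simp, by simp⟩, rfl⟩⟩
    · exact ⟨k, hk, m, n, Or.inr ⟨_, un_one, by simp, rfl, rfl⟩⟩
    · exact ⟨k, hk, m, n, Or.inr ⟨_, un_one.neg, by simp, rfl, rfl⟩⟩
    · exact ⟨k, hk, m, n, Or.inr ⟨_, un_I, by simp, rfl, rfl⟩⟩
    · exact ⟨k, hk, m, n, Or.inr ⟨_, un_I.neg, by simp, rfl, rfl⟩⟩

theorem image_of_eqv {L S : Set (Set (ℂ × ℂ))} (hL : ∀ l ∈ L, IsLine l) (hS : ∀ l ∈ S, IsLine l)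
    (h : Eqv (M0 L) (M0 S)) : ∃ (g : (ℂ × ℂ) ≃ₗ[ℂ] (ℂ × ℂ)) (t : ℂ × ℂ),
      (fun l => (fun z => g z + t) '' l) '' L = S := by
  obtain ⟨p, q, r, w, s, t, hD, h⟩ := h
  let g : (ℂ × ℂ) ≃ₗ[ℂ] (ℂ × ℂ) := LinearMap.equivOfDetNeZero (pairMap p q r w)
    (by rw [det_pairMap]; exact hD)
  have hg : ∀ z, g z = (p * z.1 + q * z.2, r * z.1 + w * z.2) := fun z => rfl
  have him : ∀ a b c, (fun z => g z + (s, t)) ''
      line (a * p + b * r) (a * q + b * w) (c - a * s - b * t) = line a b c := by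
    intro a b c
    ext z
    constructor
    · rintro ⟨z', hz, rfl⟩
      simp only [line, Set.mem_ofPred_eq, hg, Prod.fst_add, Prod.snd_add] at hz ⊢
      linear_combination hz
    · intro hz
      obtain ⟨x, y, h1, h2⟩ := exists_pt p q r w s t hD z.1 z.2
      refine ⟨(x, y), ?_, Prod.ext (by simp [hg, h1]) (by simp [hg, h2])⟩
      simp only [line, Set.mem_ofPred_eq] at hz ⊢
      rw [h1, h2] at hz
      linear_combination hz
  refine ⟨g, (s, t), Set.Subset.antisymm ?_ ?_⟩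
  · rintro _ ⟨l, hl, rfl⟩
    obtain ⟨A, B, C, hAB, rfl⟩ := hL l hl
    obtain ⟨a, b, rfl, rfl⟩ := exists_form p q r w hD A B
    have e : C = C + a * s + b * t - a * s - b * t := by ring
    rw [e] at hl ⊢
    simp only [him]
    exact ((h a b _).1 ⟨hAB, hl⟩).2
  · intro l hl
    obtain ⟨a, b, c, hab, rfl⟩ := hS l hl
    exact ⟨_, ((h a b c).2 ⟨hab, hl⟩).2, him a b c⟩

theorem classification (Λ : Submodule ℤ (ℂ × ℂ)) [DiscreteTopology Λ] [IsZLattice ℝ Λ]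
    (L : Set (Set (ℂ × ℂ))) (F : Finset (ℂ × ℂ)) (A : Arr Λ L F) (hne : F.Nonempty)
    (hrate : 4 * F.card ≤ ∑ p ∈ F, mult L p) :
    ∃ (g : (ℂ × ℂ) ≃ₗ[ℂ] (ℂ × ℂ)) (t : ℂ × ℂ),
      (fun l => (fun z => g z + t) '' l) '' L = hirzebruch ∨
      (fun l => (fun z => g z + t) '' l) '' L = holzapfel := by
  rcases A.eqv hne hrate with h | h
  · rw [show StdE = M0 hirzebruch from funext₃ fun a b c => propext (stdE_iff a b c)] at h
    obtain ⟨g, t, e⟩ := image_of_eqv A.hline (by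
      rintro l ⟨m, n, e | e | e | e⟩ <;> exact ⟨_, _, _, by simp, e⟩) h
    exact ⟨g, t, Or.inl e⟩
  · rw [show StdG = M0 holzapfel from funext₃ fun a b c => propext (stdG_iff a b c)] at h
    obtain ⟨g, t, e⟩ := image_of_eqv A.hline (by
      rintro l ⟨m, n, e | e | e | e | e | e⟩ <;> exact ⟨_, _, _, by simp, e⟩) h
    exact ⟨g, t, Or.inr e⟩

end Pool.Agent.MP_d97ab6_al.H26
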