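import Pool.Agent.MP_d97ab6_al.H26.Sys

namespace Pool.Agent.MP_d97ab6_al.H26

open Complex ComplexConjugate

/-- The family in the new coordinates `X = p x + q y + s`, `Y = r x + w y + t`. -/
def Pull (M : ℂ → ℂ → ℂ → Prop) (p q r w s t : ℂ) : ℂ → ℂ → ℂ → Prop :=
  fun a b c => M (a * p + b * r) (a * q + b * w) (c - a * s - b * t)

theorem dt_pull (p q r w a b u v : ℂ) :
    dt (a * p + b * r) (a * q + b * w) (u * p + v * r) (u * q + v * w) =
      (p * w - q * r) * dt a b u v := by
  unfold dt; ring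

theorem exists_pt (p q r w s t : ℂ) (hD : p * w - q * r ≠ 0) (X Y : ℂ) :
    ∃ x y, X = p * x + q * y + s ∧ Y = r * x + w * y + t := by
  obtain ⟨d, hd⟩ : ∃ d, d * (p * w - q * r) = 1 := ⟨_, inv_mul_cancel₀ hD⟩
  refine ⟨(w * (X - s) - q * (Y - t)) * d, (p * (Y - t) - r * (X - s)) * d, ?_, ?_⟩
  · linear_combination (s - X) * hd
  · linear_combination (t - Y) * hd

theorem exists_form (p q r w : ℂ) (hD : p * w - q * r ≠ 0) (A B : ℂ) :
    ∃ a b, a * p + b * r = A ∧ a * q + b * w = B := by
  obtain ⟨d, hd⟩ : ∃ d, d * (p * w - q * r) = 1 := ⟨_, inv_mul_cancel₀ hD⟩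
  refine ⟨(A * w - B * r) * d, (B * p - A * q) * d, ?_, ?_⟩
  · linear_combination A * hd
  · linear_combination B * hd

theorem pull_at (M : ℂ → ℂ → ℂ → Prop) (p q r w s t x y a b : ℂ) :
    Pull M p q r w s t a b (a * (p * x + q * y + s) + b * (r * x + w * y + t)) ↔
      M (a * p + b * r) (a * q + b * w) ((a * p + b * r) * x + (a * q + b * w) * y) := by
  unfold Pull
  rw [show a * (p * x + q * y + s) + b * (r * x + w * y + t) - a * s - b * t =
    (a * p + b * r) * x + (a * q + b * w) * y by ring]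

theorem sing_pull (M : ℂ → ℂ → ℂ → Prop) (p q r w s t x y : ℂ) (hD : p * w - q * r ≠ 0) :
    Sing (Pull M p q r w s t) (p * x + q * y + s) (r * x + w * y + t) ↔ Sing M x y := by
  constructor
  · rintro ⟨a, b, a', b', h1, h2, h3⟩
    rw [pull_at] at h1 h2
    exact ⟨_, _, _, _, h1, h2, by rw [dt_pull]; exact mul_ne_zero hD h3⟩
  · rintro ⟨A, B, A', B', h1, h2, h3⟩
    obtain ⟨a, b, rfl, rfl⟩ := exists_form p q r w hD A B
    obtain ⟨a', b', rfl, rfl⟩ := exists_form p q r w hD A' B'
    rw [dt_pull] at h3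
    exact ⟨a, b, a', b', (pull_at ..).2 h1, (pull_at ..).2 h2, right_ne_zero_of_mul h3⟩

theorem Sys.pull {M : ℂ → ℂ → ℂ → Prop} {h : ℝ} (S : Sys M h) (p q r w s t : ℂ) (l : ℝ)
    (hl : 0 < l) (hn : ∀ a b, nn (a * p + b * r) (a * q + b * w) = l * nn a b)
    (hD : normSq (p * w - q * r) = l ^ 2) : Sys (Pull M p q r w s t) (h * l) := by
  have hD0 : p * w - q * r ≠ 0 := by
    intro h0
    rw [h0, map_zero] at hD
    have := pow_pos hl 2
    linarith
  refine ⟨mul_pos S.pos hl, ?_, ?_, ?_, ?_⟩
  · intro a b c k hM hk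
    have := S.scale _ _ _ k hM hk
    unfold Pull
    rwa [show k * a * p + k * b * r = k * (a * p + b * r) by ring,
      show k * a * q + k * b * w = k * (a * q + b * w) by ring,
      show k * c - k * a * s - k * b * t = k * (c - a * s - b * t) by ring]
  · intro a b c hM
    have := S.ne _ _ _ hM
    rw [hn] at this
    exact (mul_pos_iff_of_pos_left hl).1 this
  · intro X Y hXY
    obtain ⟨x, y, rfl, rfl⟩ := exists_pt p q r w s t hD0 X Y
    obtain ⟨A, B, h1, h2, h3, h4, h5⟩ := S.frame x y ((sing_pull M p q r w s t x y hD0).1 hXY)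
    obtain ⟨k, hk⟩ : ∃ k : ℂ, normSq k = l := ⟨(√l : ℝ), by
      rw [normSq_ofReal]; exact Real.mul_self_sqrt hl.le⟩
    have hk0 : k ≠ 0 := by
      rintro rfl
      rw [map_zero] at hk
      linarith
    choose A' B' hA hB using fun i => exists_form p q r w hD0 (k * A i) (k * B i)
    refine ⟨A', B', ?_, ?_, ?_, ?_, ?_⟩
    · intro i
      have := hn (A' i) (B' i)
      rw [hA, hB, nn_scale, h1, hk] at this
      exact (mul_left_cancel₀ hl.ne' this).symm
    · intro i
      rw [pull_at, hA, hB]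
      have := S.scale _ _ _ k (h2 i) hk0
      rwa [show k * (A i * x + B i * y) = k * A i * x + k * B i * y by ring] at this
    · intro i j hij h0
      have := dt_pull p q r w (A' i) (B' i) (A' j) (B' j)
      rw [hA, hB, hA, hB, h0, mul_zero, dt_scale] at this
      exact mul_ne_zero (mul_ne_zero hk0 hk0) (h3 i j hij) this
    · intro u v
      have e : ∀ i, l * normSq (dt (A' i) (B' i) u v) =
          normSq (dt (A i) (B i) (u * p + v * r) (u * q + v * w)) := by
        intro i
        have a1 := dt_pull p q r w (A' i) (B' i) u v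
        have a2 := dt_scale k (A i) (B i) 1 (u * p + v * r) (u * q + v * w)
        rw [one_mul, one_mul, mul_one] at a2
        rw [hA, hB, a2] at a1
        have a3 := congrArg normSq a1
        rw [map_mul, map_mul, hk, hD] at a3
        apply mul_left_cancel₀ hl.ne'
        linarith
      have := h4 (u * p + v * r) (u * q + v * w)
      rw [hn, ← Finset.sum_congr rfl fun i _ => e i, ← Finset.mul_sum] at this
      apply mul_left_cancel₀ hl.ne'
      linarith
    · intro u v huv
      rw [pull_at] at huv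
      obtain ⟨i, hi⟩ := h5 _ _ huv
      refine ⟨i, ?_⟩
      have a1 := dt_pull p q r w u v (A' i) (B' i)
      have a2 := dt_scale 1 (u * p + v * r) (u * q + v * w) k (A i) (B i)
      rw [one_mul, one_mul, one_mul] at a2
      rw [hA, hB, a2, hi, mul_zero] at a1
      exact (mul_eq_zero.1 a1.symm).resolve_left hD0
  · intro X Y hXY u v c hM hc
    obtain ⟨x, y, rfl, rfl⟩ := exists_pt p q r w s t hD0 X Y
    have := S.lower x y ((sing_pull M p q r w s t x y hD0).1 hXY) _ _ _ hM (by
      intro h0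
      apply hc
      linear_combination h0)
    rw [hn] at this
    rw [show u * (p * x + q * y + s) + v * (r * x + w * y + t) - c =
      (u * p + v * r) * x + (u * q + v * w) * y - (c - u * s - v * t) by ring]
    linarith

theorem dt_trans {a b u v p q : ℂ} (hn : 0 < nn p q) (h1 : dt a b p q = 0) (h2 : dt u v p q = 0) :
    dt a b u v = 0 := by
  unfold dt at *
  rcases nn_pos_iff.1 hn with h | h
  · apply mul_left_cancel₀ h
    linear_combination u * h1 - a * h2
  · apply mul_left_cancel₀ h
    linear_combination v * h1 - b * h2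

/-- At most four directions at a point. -/
theorem Sys.four {M : ℂ → ℂ → ℂ → Prop} {h : ℝ} (S : Sys M h) {x y : ℂ} (A B : Fin 4 → ℂ)
    (hM : ∀ i, M (A i) (B i) (A i * x + B i * y))
    (hd : ∀ i j, i ≠ j → dt (A i) (B i) (A j) (B j) ≠ 0) {u v : ℂ} (huv : M u v (u * x + v * y)) :
    ∃ i, dt u v (A i) (B i) = 0 := by
  obtain ⟨A', B', h1, -, -, -, h5⟩ := S.frame x y ⟨_, _, _, _, hM 0, hM 1, hd 0 1 (by decide)⟩
  choose f hf using fun i => h5 _ _ (hM i)
  have hinj : Function.Injective f := by
    intro i j hij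
    by_contra hne
    refine hd i j hne (dt_trans (p := A' (f j)) (q := B' (f j)) (by rw [h1]; norm_num) ?_ (hf j))
    rw [← hij]; exact hf i
  obtain ⟨j, hj⟩ := h5 _ _ huv
  obtain ⟨i, rfl⟩ := Finite.injective_iff_surjective.1 hinj j
  exact ⟨i, dt_trans (by rw [h1]; norm_num) hj (hf i)⟩

end Pool.Agent.MP_d97ab6_al.H26
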