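import Pool.Agent.MP_d97ab6_al.H26.Basic

namespace Pool.Agent.MP_d97ab6_al.H26

open Complex ComplexConjugate

/-- determinant of two linear forms -/
def dt (a b a' b' : ℂ) : ℂ := a * b' - b * a'

/-- squared norm of a linear form -/
def nn (a b : ℂ) : ℝ := normSq a + normSq b

/-- `(x, y)` lies on two non-parallel lines of the family -/
def Sing (M : ℂ → ℂ → ℂ → Prop) (x y : ℂ) : Prop :=
  ∃ a b a' b', M a b (a * x + b * y) ∧ M a' b' (a' * x + b' * y) ∧ dt a b a' b' ≠ 0

/-- A family of lines `a x + b y = c` whose singular points are tight frames of four lines, with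
squared point-line distances at least `h`. -/
structure Sys (M : ℂ → ℂ → ℂ → Prop) (h : ℝ) : Prop where
  pos : 0 < h
  scale : ∀ a b c k, M a b c → k ≠ 0 → M (k * a) (k * b) (k * c)
  ne : ∀ a b c, M a b c → 0 < nn a b
  frame : ∀ x y, Sing M x y → ∃ A B : Fin 4 → ℂ, (∀ i, nn (A i) (B i) = 1) ∧
    (∀ i, M (A i) (B i) (A i * x + B i * y)) ∧
    (∀ i j, i ≠ j → dt (A i) (B i) (A j) (B j) ≠ 0) ∧
    (∀ u v, ∑ i, normSq (dt (A i) (B i) u v) = 2 * nn u v) ∧
    ∀ u v, M u v (u * x + v * y) → ∃ i, dt u v (A i) (B i) = 0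
  lower : ∀ x y, Sing M x y → ∀ u v c, M u v c → c ≠ u * x + v * y →
    h * nn u v ≤ normSq (u * x + v * y - c)

theorem nn_pos_iff {a b : ℂ} : 0 < nn a b ↔ a ≠ 0 ∨ b ≠ 0 := by
  unfold nn
  constructor
  · intro h
    by_contra hc
    push Not at hc
    simp [hc.1, hc.2] at h
  · rintro (h | h)
    · have := normSq_pos.2 h
      have := normSq_nonneg b
      linarith
    · have := normSq_pos.2 h
      have := normSq_nonneg a
      linarith

theorem exists_scale {a b u v : ℂ} (hab : 0 < nn a b) (huv : 0 < nn u v) (hd : dt u v a b = 0) :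
    ∃ k, k ≠ 0 ∧ u = k * a ∧ v = k * b := by
  unfold dt at hd
  rcases nn_pos_iff.1 hab with h | h
  · have hv : v = u / a * b := by field_simp; linear_combination -hd
    refine ⟨u / a, ?_, by field_simp, hv⟩
    intro hk
    have hu : u = 0 := by simpa [h] using hk
    rw [hk, zero_mul] at hv
    rcases nn_pos_iff.1 huv with t | t <;> contradiction
  · have hu : u = v / b * a := by field_simp; linear_combination hd
    refine ⟨v / b, ?_, hu, by field_simp⟩
    intro hk
    have hv : v = 0 := by simpa [h] using hk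
    rw [hk, zero_mul] at hu
    rcases nn_pos_iff.1 huv with t | t <;> contradiction

theorem Sys.par {M : ℂ → ℂ → ℂ → Prop} {h : ℝ} (S : Sys M h) {a b u v x y : ℂ}
    (hM : M a b (a * x + b * y)) (huv : 0 < nn u v) (hd : dt u v a b = 0) :
    M u v (u * x + v * y) := by
  obtain ⟨k, hk, rfl, rfl⟩ := exists_scale (S.ne _ _ _ hM) huv hd
  have := S.scale _ _ _ k hM hk
  rwa [show k * (a * x + b * y) = k * a * x + k * b * y by ring] at this

theorem nn_scale (k a b : ℂ) : nn (k * a) (k * b) = normSq k * nn a b := by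
  simp [nn]; ring

theorem dt_scale (k a b l u v : ℂ) : dt (k * a) (k * b) (l * u) (l * v) = k * l * dt a b u v := by
  simp [dt]; ring

/-- the three coordinates of the point of the sphere attached to a form -/
def s1 (a b : ℂ) : ℝ := normSq a - normSq b
/-- second coordinate -/
def s2 (a b : ℂ) : ℝ := 2 * (a.re * b.re + a.im * b.im)
/-- third coordinate -/
def s3 (a b : ℂ) : ℝ := 2 * (a.im * b.re - a.re * b.im)

theorem normSq_dt (a b u v : ℂ) : 2 * normSq (dt a b u v) =
    nn a b * nn u v - (s1 a b * s1 u v + s2 a b * s2 u v + s3 a b * s3 u v) := by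
  simp only [dt, nn, s1, s2, s3, normSq_apply, sub_re, sub_im, mul_re, mul_im]; ring

theorem s_sq (a b : ℂ) : s1 a b ^ 2 + s2 a b ^ 2 + s3 a b ^ 2 = nn a b ^ 2 := by
  simp only [nn, s1, s2, s3, normSq_apply]; ring

theorem normSq_dt_orth (a b u v : ℂ) :
    normSq (dt a b u v) + normSq (dt (-conj b) (conj a) u v) = nn a b * nn u v := by
  simp only [dt, nn, normSq_apply, sub_re, sub_im, mul_re, mul_im, neg_re, neg_im, conj_re,
    conj_im]; ring

theorem nn_orth (a b : ℂ) : nn (-conj b) (conj a) = nn a b := by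
  simp [nn, add_comm]

/-- The minimal distance lemma. -/
theorem Sys.dich {M : ℂ → ℂ → ℂ → Prop} {h : ℝ} (S : Sys M h) {x y u v c : ℂ} (hp : Sing M x y)
    (hM : M u v c) (hmin : normSq (u * x + v * y - c) = h * nn u v) :
    (M u v (u * x + v * y) ∧ ∀ a b a' b', M a b (a * x + b * y) → M a' b' (a' * x + b' * y) →
      dt a b a' b' ≠ 0 → 3 * normSq (dt a b a' b') = 2 * (nn a b * nn a' b')) ∨
    ((∀ a b, M a b (a * x + b * y) → 2 * normSq (dt a b u v) = nn a b * nn u v ∧
        M (-conj b) (conj a) (-conj b * x + conj a * y)) ∧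
      ∀ a b a' b', M a b (a * x + b * y) → M a' b' (a' * x + b' * y) → dt a b a' b' ≠ 0 →
        2 * normSq (dt a b a' b') = nn a b * nn a' b' ∨
          normSq (dt a b a' b') = nn a b * nn a' b') := by
  obtain ⟨A, B, hn, hAM, hd, hfr, hall⟩ := S.frame x y hp
  have huv := S.ne _ _ _ hM
  have hpos := S.pos
  have hc : u * x + v * y - c ≠ 0 := by
    intro h0
    rw [h0, map_zero] at hmin
    have := mul_pos hpos huv
    linarith
  have hineq : ∀ i j, i ≠ j →
      normSq (dt (A j) (B j) u v) ≤ normSq (dt (A i) (B i) (A j) (B j)) * nn u v := by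
    intro i j hij
    by_cases h0 : dt (A j) (B j) u v = 0
    · rw [h0, map_zero]
      exact mul_nonneg (normSq_nonneg _) huv.le
    obtain ⟨t, ht⟩ : ∃ t, t * dt (A j) (B j) u v = u * x + v * y - c :=
      ⟨(u * x + v * y - c) / dt (A j) (B j) u v, by field_simp⟩
    have ht0 : t ≠ 0 := by
      rintro rfl
      exact hc (by rw [← ht, zero_mul])
    have hs : Sing M (x + t * B j) (y - t * A j) := by
      refine ⟨A j, B j, u, v, ?_, ?_, h0⟩
      · rw [show A j * (x + t * B j) + B j * (y - t * A j) = A j * x + B j * y by ring]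
        exact hAM j
      · rw [show u * (x + t * B j) + v * (y - t * A j) = c by
          unfold dt at ht; linear_combination -ht]
        exact hM
    have e : A i * (x + t * B j) + B i * (y - t * A j) - (A i * x + B i * y) =
        t * dt (A i) (B i) (A j) (B j) := by unfold dt; ring
    have hl := S.lower _ _ hs _ _ _ (hAM i) (by
      intro h1
      have : t * dt (A i) (B i) (A j) (B j) = 0 := by rw [← e, ← h1, sub_self]
      exact mul_ne_zero ht0 (hd i j hij) this)
    rw [e, hn i, mul_one, map_mul] at hl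
    have h2 : normSq t * normSq (dt (A j) (B j) u v) = h * nn u v := by
      rw [← map_mul, ht, hmin]
    have h3 := normSq_nonneg (dt (A j) (B j) u v)
    have h4 := mul_le_mul_of_nonneg_right hl h3
    have h5 : h * normSq (dt (A j) (B j) u v) ≤
        h * (normSq (dt (A i) (B i) (A j) (B j)) * nn u v) := by
      calc _ ≤ _ := h4
        _ = normSq (dt (A i) (B i) (A j) (B j)) * (normSq t * normSq (dt (A j) (B j) u v)) := by
          ring
        _ = _ := by rw [h2]; ring
    exact le_of_mul_le_mul_left h5 hpos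
  have hsum : ∀ u v, s1 u v * (s1 (A 0) (B 0) + s1 (A 1) (B 1) + s1 (A 2) (B 2) + s1 (A 3) (B 3)) +
      s2 u v * (s2 (A 0) (B 0) + s2 (A 1) (B 1) + s2 (A 2) (B 2) + s2 (A 3) (B 3)) +
      s3 u v * (s3 (A 0) (B 0) + s3 (A 1) (B 1) + s3 (A 2) (B 2) + s3 (A 3) (B 3)) = 0 := by
    intro u v
    have h1 := hfr u v
    rw [Fin.sum_univ_four] at h1
    have a0 := normSq_dt (A 0) (B 0) u v
    have a1 := normSq_dt (A 1) (B 1) u v
    have a2 := normSq_dt (A 2) (B 2) u v
    have a3 := normSq_dt (A 3) (B 3) u v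
    rw [hn] at a0 a1 a2 a3
    linarith
  have k1 := hsum 1 0
  have k2 := hsum 1 1
  have k3 := hsum 1 I
  have e1 : s1 1 0 = 1 ∧ s2 1 0 = 0 ∧ s3 1 0 = 0 ∧ s1 1 1 = 0 ∧ s2 1 1 = 2 ∧ s3 1 1 = 0 ∧
      s1 1 I = 0 ∧ s2 1 I = 0 ∧ s3 1 I = -2 := by
    simp [s1, s2, s3]
  obtain ⟨q1, q2, q3, q4, q5, q6, q7, q8, q9⟩ := e1
  rw [q1, q2, q3] at k1
  rw [q4, q5, q6] at k2
  rw [q7, q8, q9] at k3
  have hW : ∀ j, 2 * normSq (dt (A j) (B j) u v) = nn u v * (1 - (s1 (A j) (B j) * (s1 u v / nn u v)
      + s2 (A j) (B j) * (s2 u v / nn u v) + s3 (A j) (B j) * (s3 u v / nn u v))) := by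
    intro j
    rw [normSq_dt, hn]
    field_simp
  have hD : ∀ i j, 2 * normSq (dt (A i) (B i) (A j) (B j)) = 1 - (s1 (A i) (B i) * s1 (A j) (B j)
      + s2 (A i) (B i) * s2 (A j) (B j) + s3 (A i) (B i) * s3 (A j) (B j)) := by
    intro i j
    rw [normSq_dt, hn, hn, mul_one]
  have core := vec_core (fun i => s1 (A i) (B i)) (fun i => s2 (A i) (B i))
    (fun i => s3 (A i) (B i)) (s1 u v / nn u v) (s2 u v / nn u v) (s3 u v / nn u v)
    (by have := s_sq u v; field_simp; linarith) (fun i => by rw [s_sq, hn]; norm_num)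
    (by linarith) (by linarith) (by linarith) (by
      intro i j hij
      have h1 := hineq i j hij
      have h2 := hW j
      have h3 := hD i j
      have h4 : nn u v * (1 - (s1 (A j) (B j) * (s1 u v / nn u v)
        + s2 (A j) (B j) * (s2 u v / nn u v) + s3 (A j) (B j) * (s3 u v / nn u v))) ≤
        nn u v * (1 - (s1 (A i) (B i) * s1 (A j) (B j)
        + s2 (A i) (B i) * s2 (A j) (B j) + s3 (A i) (B i) * s3 (A j) (B j))) := by
        rw [← h2, ← h3]; linarith
      have h5 := le_of_mul_le_mul_left h4 huv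
      linarith)
  have hrep : ∀ a b, M a b (a * x + b * y) → ∃ i k, k ≠ 0 ∧ a = k * A i ∧ b = k * B i := by
    intro a b hab
    obtain ⟨i, hi⟩ := hall a b hab
    obtain ⟨k, hk⟩ := exists_scale (by rw [hn i]; norm_num) (S.ne _ _ _ hab) hi
    exact ⟨i, k, hk⟩
  have hij : ∀ i j k l, dt (k * A i) (k * B i) (l * A j) (l * B j) ≠ 0 → i ≠ j := by
    rintro i j k l h0 rfl
    exact h0 (by unfold dt; ring)
  rcases core with ⟨c1, i, c2⟩ | ⟨c1, c2, c3⟩
  · left
    constructor
    · refine S.par (hAM i) huv ?_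
      have h2 := hW i
      rw [c2, sub_self, mul_zero] at h2
      have h3 : dt (A i) (B i) u v = 0 := normSq_eq_zero.1 (by linarith)
      unfold dt at h3 ⊢
      linear_combination -h3
    · intro a b a' b' h1 h2 h3
      obtain ⟨i, k, -, rfl, rfl⟩ := hrep a b h1
      obtain ⟨j, l, -, rfl, rfl⟩ := hrep a' b' h2
      have h4 := hD i j
      rw [c1 i j (hij i j k l h3)] at h4
      rw [dt_scale, nn_scale, nn_scale, hn, hn, map_mul, map_mul]
      linear_combination (3 / 2 * normSq k * normSq l) * h4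
  · right
    constructor
    · intro a b h1
      have hab := S.ne _ _ _ h1
      obtain ⟨i, k, hk, rfl, rfl⟩ := hrep a b h1
      constructor
      · have h2 := hW i
        rw [c1 i] at h2
        have := dt_scale k (A i) (B i) 1 u v
        rw [one_mul, one_mul, mul_one] at this
        rw [this, nn_scale, hn, map_mul]
        linear_combination (normSq k) * h2
      · obtain ⟨j, hj⟩ := c3 i
        refine S.par (hAM j) (by rwa [nn_orth]) ?_
        have h4 := hD i j
        rw [hj] at h4
        have h5 := normSq_dt_orth (k * A i) (k * B i) (A j) (B j)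
        have := dt_scale k (A i) (B i) 1 (A j) (B j)
        rw [one_mul, one_mul, mul_one] at this
        rw [this, nn_scale, hn, hn, map_mul] at h5
        exact normSq_eq_zero.1 (by linear_combination h5 - (normSq k / 2) * h4)
    · intro a b a' b' h1 h2 h3
      obtain ⟨i, k, -, rfl, rfl⟩ := hrep a b h1
      obtain ⟨j, l, -, rfl, rfl⟩ := hrep a' b' h2
      have h4 := hD i j
      rw [dt_scale, nn_scale, nn_scale, hn, hn, map_mul, map_mul]
      rcases c2 i j (hij i j k l h3) with c | c
      · left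
        rw [c] at h4
        linear_combination (normSq k * normSq l) * h4
      · right
        rw [c] at h4
        linear_combination (normSq k * normSq l / 2) * h4

end Pool.Agent.MP_d97ab6_al.H26
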